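import Pool.Agent.P8H68.AS.Mean

/-!
# Intervals on which a Fourier-Stieltjes transform is almost periodic
-/

open MeasureTheory Filter Topology Set
open scoped BigOperators ENNReal

namespace Pool.Agent.P8H68.AS

lemma norm_e_sub (s t x : ℝ) : ‖e ((s - t) * x) - 1‖ = ‖e (s * x) - e (t * x)‖ := by
  have h : e (s * x) - e (t * x) = e (t * x) * (e ((s - t) * x) - 1) := by
    rw [mul_sub, ← e_add, mul_one]
    congr 2
    ring
  rw [h, norm_mul, norm_e, one_mul]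

/-- Common almost periods of finitely many characters are relatively dense. -/
lemma ap_finite (D : Finset ℝ) {η : ℝ} (hη : 0 < η) :
    ∃ L : ℝ, 0 ≤ L ∧ ∀ a : ℝ, ∃ τ ∈ Icc a (a + L), ∀ x ∈ D, ‖e (τ * x) - 1‖ ≤ η := by
  let Φ : ℝ → (D → ℂ) := fun t x => e (t * x)
  have ht : TotallyBounded (range Φ) := by
    refine (isCompact_closedBall (0 : D → ℂ) 1).totallyBounded.subset ?_
    rintro _ ⟨t, rfl⟩
    rw [mem_closedBall_zero_iff]
    exact (pi_norm_le_iff_of_nonneg zero_le_one).2 (fun x => by simp [Φ])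
  obtain ⟨t, hts, htf, htc⟩ := ht.exists_subset (Metric.dist_mem_uniformity hη)
  have hts' : ∀ y ∈ t, ∃ s : ℝ, Φ s = y := fun y hy => hts hy
  choose! s hs using hts'
  have hfin : (s '' t).Finite := htf.image s
  obtain ⟨B, hB⟩ := hfin.isBounded.exists_norm_le
  refine ⟨2 * max B 0, by positivity, fun a => ?_⟩
  have h1 : Φ (a + max B 0) ∈ ⋃ y ∈ t, {x | (x, y) ∈ {p : (D → ℂ) × (D → ℂ) | dist p.1 p.2 < η}} :=
    htc (mem_range_self _)
  simp only [mem_iUnion, mem_ofPred_eq, exists_prop] at h1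
  obtain ⟨y, hy, h1⟩ := h1
  have hB' : |s y| ≤ max B 0 := (hB (s y) (mem_image_of_mem s hy)).trans (le_max_left _ _)
  have h2 := abs_le.1 hB'
  refine ⟨a + max B 0 - s y, ⟨by linarith, by linarith⟩, fun x hx => ?_⟩
  rw [norm_e_sub]
  have h3 : Φ (s y) = y := hs y hy
  rw [← h3] at h1
  have h4 := (dist_le_pi_dist (Φ (a + max B 0)) (Φ (s y)) ⟨x, hx⟩).trans h1.le
  rw [dist_eq_norm] at h4
  exact h4

lemma ft_restrict_add (ρ : Measure ℝ) [IsFiniteMeasure ρ] {S : Set ℝ} (hS : MeasurableSet S)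
    (ξ : ℝ) : ft (ρ.restrict S) ξ + ft (ρ.restrict Sᶜ) ξ = ft ρ ξ := by
  unfold ft
  exact integral_add_compl hS (integrable_e ρ ξ)

lemma decomp (ρ : Measure ℝ) [IsFiniteMeasure ρ] {ε : ℝ} (hε : 0 < ε) :
    ∃ (D : Finset ℝ) (γ : Measure ℝ), IsFiniteMeasure γ ∧ NullSingletonClass γ ∧
      ∀ ξ, ‖ft ρ ξ - ft (ρ.restrict D) ξ - ft γ ξ‖ ≤ ε := by
  let At : Set ℝ := {x | 0 < ρ {x}}
  have hAc : At.Countable := by
    refine Measure.countable_meas_pos_of_disjoint_iUnion (μ := ρ) (As := fun x : ℝ => {x})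
      (fun x => measurableSet_singleton x) ?_
    intro x y hxy
    simpa using hxy
  have hAm : MeasurableSet At := hAc.measurableSet
  have hcount : Countable At := hAc.to_subtype
  have hsum : ∑' x : At, ρ {(x : ℝ)} = ρ At := by
    rw [← measure_iUnion]
    · congr 1
      ext y
      simp
    · intro x y hxy
      simp only [Function.onFun, disjoint_singleton]
      exact fun h => hxy (Subtype.ext h)
    · intro x
      exact measurableSet_singleton _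
  have hne : ∑' x : At, ρ {(x : ℝ)} ≠ ∞ := by
    rw [hsum]
    exact measure_ne_top _ _
  have htt := ENNReal.tendsto_tsum_compl_atTop_zero hne
  have hev : ∀ᶠ s : Finset At in atTop, ∑' b : { x // x ∉ s }, ρ {((b : At) : ℝ)} <
      ENNReal.ofReal ε := by
    have : (0 : ℝ≥0∞) < ENNReal.ofReal ε := ENNReal.ofReal_pos.2 hε
    exact htt.eventually (gt_mem_nhds this)
  obtain ⟨s, hs⟩ := hev.exists
  let D : Finset ℝ := s.map (Function.Embedding.subtype _)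
  have hDA : (D : Set ℝ) ⊆ At := by
    intro x hx
    simp only [D, Finset.coe_map, Function.Embedding.subtype_apply, mem_image] at hx
    obtain ⟨y, _, rfl⟩ := hx
    exact y.2
  have hrest : ρ (At \ D) ≤ ENNReal.ofReal ε := by
    refine le_trans ?_ hs.le
    refine le_trans (measure_mono (t := ⋃ b : { x // x ∉ s }, {((b : At) : ℝ)}) ?_)
      (measure_iUnion_le _)
    rintro x ⟨hx, hxD⟩
    simp only [mem_iUnion, mem_singleton_iff]
    refine ⟨⟨⟨x, hx⟩, ?_⟩, rfl⟩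
    intro hmem
    apply hxD
    simp only [D, Finset.coe_map, Function.Embedding.subtype_apply, mem_image]
    exact ⟨⟨x, hx⟩, hmem, rfl⟩
  refine ⟨D, ρ.restrict Atᶜ, inferInstance, ⟨fun x => ?_⟩, fun ξ => ?_⟩
  · rw [Measure.restrict_apply (measurableSet_singleton x)]
    by_cases hx : x ∈ At
    · have : ({x} : Set ℝ) ∩ Atᶜ = ∅ := by
        ext y; simp only [mem_inter_iff, mem_singleton_iff, mem_compl_iff, mem_empty_iff_false,
          iff_false, not_and, not_not]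
        rintro rfl; exact hx
      rw [this]; simp
    · have h0 : ρ {x} = 0 := by
        by_contra h
        exact hx (pos_iff_ne_zero.2 h)
      exact measure_mono_null inter_subset_left h0
  · have hDm : MeasurableSet (D : Set ℝ) := D.measurableSet
    have h1 := ft_restrict_add ρ hAm ξ
    have h2 := ft_restrict_add (ρ.restrict At) hDm ξ
    rw [Measure.restrict_restrict hDm, Measure.restrict_restrict hDm.compl,
      inter_eq_left.2 hDA] at h2
    have h3 : ft ρ ξ - ft (ρ.restrict D) ξ - ft (ρ.restrict Atᶜ) ξ =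
        ft (ρ.restrict ((D : Set ℝ)ᶜ ∩ At)) ξ := by
      rw [← h1, ← h2]; ring
    rw [h3]
    refine (norm_ft_le _ _).trans ?_
    rw [Measure.real, Measure.restrict_apply_univ]
    have h4 : (D : Set ℝ)ᶜ ∩ At = At \ D := by
      ext y; simp [and_comm]
    rw [h4]
    exact ENNReal.toReal_le_of_le_ofReal hε.le hrest

lemma good_interval (γ : Fin 4 → Measure ℝ) (hf : ∀ j, IsFiniteMeasure (γ j))
    (hn : ∀ j, NullSingletonClass (γ j)) {ε : ℝ} (hε : 0 < ε) (R : ℝ) :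
    ∃ ξ0 : ℚ, ∀ j, ∀ ξ ∈ Icc (ξ0 : ℝ) (ξ0 + R), ‖ft (γ j) ξ‖ ≤ ε := by
  have hε2 : 0 < ε / 2 := by positivity
  have h1 : ∀ j, ∃ r : ℝ, 0 < r ∧ ∀ ξ η : ℝ, |ξ - η| ≤ r → ‖ft (γ j) ξ - ft (γ j) η‖ ≤ ε / 2 :=
    fun j => by
      have := hf j
      exact ft_uniform (γ j) hε2
  choose r hr hru using h1
  obtain ⟨q, hq⟩ : ∃ q : ℕ, ∀ j, ((q : ℝ) + 1)⁻¹ ≤ r j := by
    have : ∀ j, ∀ᶠ q : ℕ in atTop, ((q : ℝ) + 1)⁻¹ ≤ r j := by
      intro j
      have ht : Tendsto (fun q : ℕ => ((q : ℝ) + 1)⁻¹) atTop (𝓝 0) := by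
        simpa using tendsto_one_div_add_atTop_nhds_zero_nat (𝕜 := ℝ)
      exact (ht.eventually (gt_mem_nhds (hr j))).mono (fun _ h => h.le)
    exact (eventually_all.2 this).exists
  set s : ℝ := ((q : ℝ) + 1)⁻¹ with hs
  have hs0 : 0 < s := by positivity
  let m : ℕ := ⌈R / s⌉₊
  have hT : Tendsto (fun n : ℕ => ∑ j : Fin 4, ∑ i ∈ Finset.range (m + 1),
      (n : ℝ)⁻¹ * ∑ k ∈ Finset.range n, ‖ft (γ j) (i * s + k * s)‖ ^ 2) atTop (𝓝 0) := by
    have : Tendsto (fun n : ℕ => ∑ j : Fin 4, ∑ i ∈ Finset.range (m + 1),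
      (n : ℝ)⁻¹ * ∑ k ∈ Finset.range n, ‖ft (γ j) (i * s + k * s)‖ ^ 2) atTop
      (𝓝 (∑ j : Fin 4, ∑ i ∈ Finset.range (m + 1), (0 : ℝ))) := by
      refine tendsto_finsetSum _ (fun j _ => tendsto_finsetSum _ (fun i _ => ?_))
      have := hf j
      have := hn j
      exact wiener (γ j) (i * s) s hs0
    simpa using this
  have hev := hT.eventually (gt_mem_nhds (show (0 : ℝ) < (ε / 2) ^ 2 by positivity))
  obtain ⟨n, hn1, hn2⟩ := (hev.and (eventually_gt_atTop 0)).exists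
  have hn0 : (0 : ℝ) < n := by exact_mod_cast hn2
  -- find a good k
  obtain ⟨k, hk⟩ : ∃ k : ℕ, ∑ j : Fin 4, ∑ i ∈ Finset.range (m + 1),
      ‖ft (γ j) (i * s + k * s)‖ ^ 2 < (ε / 2) ^ 2 := by
    by_contra hcon
    push Not at hcon
    have h2 : ∑ j : Fin 4, ∑ i ∈ Finset.range (m + 1),
        (n : ℝ)⁻¹ * ∑ k ∈ Finset.range n, ‖ft (γ j) (i * s + k * s)‖ ^ 2 =
        (n : ℝ)⁻¹ * ∑ k ∈ Finset.range n, ∑ j : Fin 4, ∑ i ∈ Finset.range (m + 1),
          ‖ft (γ j) (i * s + k * s)‖ ^ 2 := by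
      simp_rw [← Finset.mul_sum]
      congr 1
      rw [Finset.sum_comm (s := Finset.range n)]
      refine Finset.sum_congr rfl (fun j _ => ?_)
      rw [Finset.sum_comm]
    rw [h2] at hn1
    have h3 : (ε / 2) ^ 2 * n ≤ ∑ k ∈ Finset.range n, ∑ j : Fin 4, ∑ i ∈ Finset.range (m + 1),
          ‖ft (γ j) (i * s + k * s)‖ ^ 2 := by
      calc (ε / 2) ^ 2 * n = ∑ k ∈ Finset.range n, (ε / 2) ^ 2 := by simp [mul_comm]
        _ ≤ _ := Finset.sum_le_sum (fun k _ => hcon k)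
    have h4 : (ε / 2) ^ 2 ≤ (n : ℝ)⁻¹ * ∑ k ∈ Finset.range n, ∑ j : Fin 4,
        ∑ i ∈ Finset.range (m + 1), ‖ft (γ j) (i * s + k * s)‖ ^ 2 := by
      rw [le_inv_mul_iff₀ hn0]
      linarith
    linarith
  refine ⟨(k : ℚ) / (q + 1), fun j ξ hξ => ?_⟩
  have hcast : (((k : ℚ) / (q + 1) : ℚ) : ℝ) = k * s := by
    push_cast
    rw [hs, div_eq_mul_inv]
  rw [hcast] at hξ
  set i : ℕ := ⌊(ξ - k * s) / s⌋₊ with hi
  have hnn : 0 ≤ (ξ - k * s) / s := div_nonneg (by linarith [hξ.1]) hs0.le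
  have hi1 : (i : ℝ) ≤ (ξ - k * s) / s := Nat.floor_le hnn
  have hi2 : (ξ - k * s) / s < i + 1 := Nat.lt_floor_add_one _
  have him : i ≤ m := by
    have h5 : (ξ - k * s) / s ≤ R / s := by
      gcongr
      linarith [hξ.2]
    have h6 : (i : ℝ) ≤ m := (hi1.trans h5).trans (Nat.le_ceil _)
    exact_mod_cast h6
  have hmem : i ∈ Finset.range (m + 1) := by simp; omega
  have h7 : ‖ft (γ j) (i * s + k * s)‖ ^ 2 < (ε / 2) ^ 2 := by
    refine lt_of_le_of_lt ?_ hk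
    refine le_trans ?_ (Finset.single_le_sum (f := fun j => ∑ i ∈ Finset.range (m + 1),
      ‖ft (γ j) (i * s + k * s)‖ ^ 2) (fun j _ => Finset.sum_nonneg (fun i _ => by positivity))
      (Finset.mem_univ j))
    exact Finset.single_le_sum (f := fun i : ℕ => ‖ft (γ j) (i * s + k * s)‖ ^ 2)
      (fun i _ => by positivity) hmem
  have h8 : ‖ft (γ j) (i * s + k * s)‖ < ε / 2 := lt_of_pow_lt_pow_left₀ 2 hε2.le h7
  have h9 : |ξ - (i * s + k * s)| ≤ r j := by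
    have h10 : ξ - k * s = ((ξ - k * s) / s) * s := by field_simp
    have h11 : ξ - (i * s + k * s) = ((ξ - k * s) / s - i) * s := by
      rw [sub_mul, ← h10]; ring
    rw [h11, abs_mul, abs_of_nonneg hs0.le, abs_of_nonneg (by linarith)]
    calc ((ξ - k * s) / s - i) * s ≤ 1 * s := by gcongr; linarith
      _ = s := one_mul _
      _ ≤ r j := hq j
  have h12 := hru j _ _ h9
  calc ‖ft (γ j) ξ‖ = ‖(ft (γ j) ξ - ft (γ j) (i * s + k * s)) + ft (γ j) (i * s + k * s)‖ := by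
        congr 1; ring
    _ ≤ ‖ft (γ j) ξ - ft (γ j) (i * s + k * s)‖ + ‖ft (γ j) (i * s + k * s)‖ := norm_add_le _ _
    _ ≤ ε / 2 + ε / 2 := add_le_add h12 h8.le
    _ = ε := by ring

lemma ft_restrict_diff (ρ : Measure ℝ) [IsFiniteMeasure ρ] (D : Finset ℝ) {η τ : ℝ} (hη : 0 ≤ η)
    (hτ : ∀ x ∈ D, ‖e (τ * x) - 1‖ ≤ η) (ξ : ℝ) :
    ‖ft (ρ.restrict D) (ξ + τ) - ft (ρ.restrict D) ξ‖ ≤ η * ρ.real univ := by
  have h1 : ft (ρ.restrict D) (ξ + τ) - ft (ρ.restrict D) ξ =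
      ∫ x in (D : Set ℝ), e (ξ * x) * (e (τ * x) - 1) ∂ρ := by
    unfold ft
    rw [← integral_sub (integrable_e _ _) (integrable_e _ _)]
    congr 1
    ext x
    rw [mul_sub, ← e_add, mul_one]
    congr 2
    ring
  rw [h1]
  have h2 : ‖∫ x in (D : Set ℝ), e (ξ * x) * (e (τ * x) - 1) ∂ρ‖ ≤ η * ρ.real D := by
    refine norm_setIntegral_le_of_norm_le_const (measure_lt_top _ _) ?_
    intro x hx
    rw [norm_mul, norm_e, one_mul]
    exact hτ x hx
  refine h2.trans ?_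
  exact mul_le_mul_of_nonneg_left (measureReal_mono (μ := ρ) (subset_univ _)
    (measure_ne_top _ _)) hη

/-- For every function of class `IsFS` there are arbitrarily long intervals on which it has a
relatively dense set of almost periods, with a fixed inclusion length. -/
lemma IsFS.interval {F : ℝ → ℂ} (hF : IsFS F) {ε : ℝ} (hε : 0 < ε) :
    ∃ L : ℝ, 0 ≤ L ∧ ∀ R : ℝ, ∃ ξ0 : ℚ, ∀ a : ℝ, ∃ τ ∈ Icc a (a + L),
      ∀ ξ ∈ Icc (ξ0 : ℝ) (ξ0 + R), ξ + τ ∈ Icc (ξ0 : ℝ) (ξ0 + R) → ‖F (ξ + τ) - F ξ‖ ≤ ε := by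
  obtain ⟨ρ, hρ, hF⟩ := hF
  have hd : ∀ j, ∃ (D : Finset ℝ) (γ : Measure ℝ), IsFiniteMeasure γ ∧ NullSingletonClass γ ∧
      ∀ ξ, ‖ft (ρ j) ξ - ft ((ρ j).restrict D) ξ - ft γ ξ‖ ≤ ε / 32 := fun j => by
    have := hρ j
    exact decomp (ρ j) (by positivity)
  choose D γ hγf hγn hdec using hd
  set W : ℝ := ∑ j : Fin 4, (ρ j).real univ with hW
  have hW0 : 0 ≤ W := Finset.sum_nonneg (fun j _ => measureReal_nonneg)
  set η : ℝ := ε / (2 * (W + 1)) with hη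
  have hη0 : 0 < η := by positivity
  obtain ⟨L, hL, hap⟩ := ap_finite (Finset.univ.biUnion D) hη0
  refine ⟨L, hL, fun R => ?_⟩
  obtain ⟨ξ0, hξ0⟩ := good_interval γ hγf hγn (ε := ε / 32) (by positivity) R
  refine ⟨ξ0, fun a => ?_⟩
  obtain ⟨τ, hτ, hτ2⟩ := hap a
  refine ⟨τ, hτ, fun ξ h1 h2 => ?_⟩
  have hj : ∀ j, ‖ft (ρ j) (ξ + τ) - ft (ρ j) ξ‖ ≤ η * (ρ j).real univ + ε / 8 := by
    intro j
    have := hρ j
    have e1 := hdec j (ξ + τ)
    have e2 := hdec j ξ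
    have e3 := hξ0 j (ξ + τ) h2
    have e4 := hξ0 j ξ h1
    have e5 := ft_restrict_diff (ρ j) (D j) (τ := τ) hη0.le (fun x hx => hτ2 x
      (Finset.mem_biUnion.2 ⟨j, Finset.mem_univ _, hx⟩)) ξ
    have e6 : ft (ρ j) (ξ + τ) - ft (ρ j) ξ =
        (ft (ρ j) (ξ + τ) - ft ((ρ j).restrict (D j)) (ξ + τ) - ft (γ j) (ξ + τ)) -
        (ft (ρ j) ξ - ft ((ρ j).restrict (D j)) ξ - ft (γ j) ξ) +
        (ft ((ρ j).restrict (D j)) (ξ + τ) - ft ((ρ j).restrict (D j)) ξ) +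
        ft (γ j) (ξ + τ) - ft (γ j) ξ := by ring
    rw [e6]
    have n1 := norm_sub_le
      ((ft (ρ j) (ξ + τ) - ft ((ρ j).restrict (D j)) (ξ + τ) - ft (γ j) (ξ + τ)) -
        (ft (ρ j) ξ - ft ((ρ j).restrict (D j)) ξ - ft (γ j) ξ) +
        (ft ((ρ j).restrict (D j)) (ξ + τ) - ft ((ρ j).restrict (D j)) ξ) +
        ft (γ j) (ξ + τ)) (ft (γ j) ξ)
    have n2 := norm_add_le
      ((ft (ρ j) (ξ + τ) - ft ((ρ j).restrict (D j)) (ξ + τ) - ft (γ j) (ξ + τ)) -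
        (ft (ρ j) ξ - ft ((ρ j).restrict (D j)) ξ - ft (γ j) ξ) +
        (ft ((ρ j).restrict (D j)) (ξ + τ) - ft ((ρ j).restrict (D j)) ξ)) (ft (γ j) (ξ + τ))
    have n3 := norm_add_le
      ((ft (ρ j) (ξ + τ) - ft ((ρ j).restrict (D j)) (ξ + τ) - ft (γ j) (ξ + τ)) -
        (ft (ρ j) ξ - ft ((ρ j).restrict (D j)) ξ - ft (γ j) ξ))
        (ft ((ρ j).restrict (D j)) (ξ + τ) - ft ((ρ j).restrict (D j)) ξ)
    have n4 := norm_sub_le
      (ft (ρ j) (ξ + τ) - ft ((ρ j).restrict (D j)) (ξ + τ) - ft (γ j) (ξ + τ))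
        (ft (ρ j) ξ - ft ((ρ j).restrict (D j)) ξ - ft (γ j) ξ)
    linarith
  have h3 : F (ξ + τ) - F ξ = ∑ j : Fin 4, Complex.I ^ (j : ℕ) *
      (ft (ρ j) (ξ + τ) - ft (ρ j) ξ) := by
    rw [hF, hF, ← Finset.sum_sub_distrib]
    refine Finset.sum_congr rfl (fun j _ => ?_)
    ring
  rw [h3]
  calc ‖∑ j : Fin 4, Complex.I ^ (j : ℕ) * (ft (ρ j) (ξ + τ) - ft (ρ j) ξ)‖
      ≤ ∑ j : Fin 4, ‖Complex.I ^ (j : ℕ) * (ft (ρ j) (ξ + τ) - ft (ρ j) ξ)‖ := norm_sum_le _ _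
    _ ≤ ∑ j : Fin 4, (η * (ρ j).real univ + ε / 8) := by
        refine Finset.sum_le_sum (fun j _ => ?_)
        rw [norm_mul, norm_pow, Complex.norm_I, one_pow, one_mul]
        exact hj j
    _ = η * W + ε / 2 := by
        rw [Finset.sum_add_distrib, ← Finset.mul_sum, ← hW]
        simp
        ring
    _ ≤ ε / 2 + ε / 2 := by
        gcongr
        rw [hη, div_mul_eq_mul_div, div_le_iff₀ (by positivity)]
        nlinarith
    _ = ε := by ring

end Pool.Agent.P8H68.AS
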