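import Mathlib

/-!
# Fourier-Stieltjes transforms of finite positive measures on the line

`e u = exp(-2 π i u)`, `ft ρ ξ = ∫ e(ξ x) dρ(x)`; uniform continuity, Wiener's lemma (discrete
averages), and the uniform existence of (twisted) discrete means.
-/

open MeasureTheory Filter Topology Set
open scoped BigOperators ENNReal

namespace Pool.Agent.P8H68.AS

/-- `e u = exp(-2 π i u)`. -/
noncomputable def e (u : ℝ) : ℂ := ((Real.fourierChar (-u) : Circle) : ℂ)

lemma e_add (u v : ℝ) : e (u + v) = e u * e v := by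
  unfold e
  rw [neg_add, AddChar.map_add_eq_mul]
  simp

@[simp] lemma e_zero : e 0 = 1 := by simp [e]

@[simp] lemma norm_e (u : ℝ) : ‖e u‖ = 1 := Circle.norm_coe _

lemma continuous_e : Continuous e := by
  unfold e
  exact continuous_subtype_val.comp (Real.continuous_fourierChar.comp continuous_neg)

lemma e_neg (u : ℝ) : e (-u) = (starRingEnd ℂ) (e u) := by
  unfold e
  rw [← Circle.coe_inv_eq_conj, ← AddChar.map_neg_eq_inv]

lemma e_eq_exp (u : ℝ) : e u = Complex.exp (-(2 * Real.pi * u : ℝ) * Complex.I) := by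
  unfold e
  rw [Real.fourierChar_apply]
  congr 1
  push_cast
  ring

lemma e_nat_mul (n : ℕ) (u : ℝ) : e (n * u) = e u ^ n := by
  induction n with
  | zero => simp
  | succ n ih => rw [pow_succ, ← ih, ← e_add]; congr 1; push_cast; ring

lemma e_eq_one_iff (u : ℝ) : e u = 1 ↔ ∃ n : ℤ, u = n := by
  rw [e_eq_exp, Complex.exp_eq_one_iff]
  constructor
  · rintro ⟨n, hn⟩
    refine ⟨-n, ?_⟩
    have h2 : (-(2 * Real.pi * u : ℝ) : ℂ) = n * (2 * Real.pi) := by
      have := mul_right_cancel₀ Complex.I_ne_zero (show (-(2 * Real.pi * u : ℝ) : ℂ) * Complex.I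
        = (n * (2 * Real.pi)) * Complex.I by rw [hn]; ring)
      exact this
    have h3 : -(2 * Real.pi * u) = n * (2 * Real.pi) := by exact_mod_cast h2
    have hpi := Real.pi_pos
    have : u = -(n : ℝ) := by
      have h4 : (2 * Real.pi) * (u + n) = 0 := by linarith
      rcases mul_eq_zero.1 h4 with h | h
      · exfalso; linarith
      · linarith
    simpa using this
  · rintro ⟨n, rfl⟩
    refine ⟨-n, ?_⟩
    push_cast
    ring

lemma countable_e_eq_one : {u : ℝ | e u = 1}.Countable := by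
  have : {u : ℝ | e u = 1} = Set.range (fun n : ℤ => (n : ℝ)) := by
    ext u
    simp only [mem_ofPred_eq, e_eq_one_iff, mem_range]
    exact ⟨fun ⟨n, h⟩ => ⟨n, h.symm⟩, fun ⟨n, h⟩ => ⟨n, h.symm⟩⟩
  rw [this]
  exact Set.countable_range _

/-- The Fourier-Stieltjes transform of a measure. -/
noncomputable def ft (ρ : Measure ℝ) (ξ : ℝ) : ℂ := ∫ x, e (ξ * x) ∂ρ

lemma integrable_e (ρ : Measure ℝ) [IsFiniteMeasure ρ] (ξ : ℝ) :
    Integrable (fun x => e (ξ * x)) ρ := by
  refine (integrable_const (1 : ℝ)).mono' ?_ ?_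
  · exact (continuous_e.comp (by fun_prop)).aestronglyMeasurable
  · exact Eventually.of_forall (fun x => by simp)

lemma norm_ft_le (ρ : Measure ℝ) [IsFiniteMeasure ρ] (ξ : ℝ) : ‖ft ρ ξ‖ ≤ ρ.real univ := by
  unfold ft
  refine (norm_integral_le_integral_norm _).trans ?_
  simp

lemma ft_uniform (ρ : Measure ℝ) [IsFiniteMeasure ρ] {ε : ℝ} (hε : 0 < ε) :
    ∃ r : ℝ, 0 < r ∧ ∀ ξ η : ℝ, |ξ - η| ≤ r → ‖ft ρ ξ - ft ρ η‖ ≤ ε := by
  let g : ℝ → ℝ := fun h => ∫ x, ‖e (h * x) - 1‖ ∂ρ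
  have hg : Continuous g := by
    refine continuous_of_dominated (bound := fun _ => (2 : ℝ)) ?_ ?_ (integrable_const _) ?_
    · intro h
      exact ((continuous_e.comp (by fun_prop : Continuous (fun x : ℝ => h * x))).sub
        continuous_const).norm.aestronglyMeasurable
    · intro h
      refine Eventually.of_forall (fun x => ?_)
      simp only [norm_norm]
      calc ‖e (h * x) - 1‖ ≤ ‖e (h * x)‖ + ‖(1 : ℂ)‖ := norm_sub_le _ _
        _ = 2 := by simp; norm_num
    · refine Eventually.of_forall (fun x => ?_)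
      exact ((continuous_e.comp (by fun_prop : Continuous (fun h : ℝ => h * x))).sub
        continuous_const).norm
  have hg0 : g 0 = 0 := by simp [g]
  have h1 := (Metric.continuous_iff.1 hg) 0 ε hε
  obtain ⟨δ, hδ, h1⟩ := h1
  refine ⟨δ / 2, by positivity, fun ξ η h => ?_⟩
  have h2 : g (ξ - η) < ε := by
    have := h1 (ξ - η) (by rw [Real.dist_eq, sub_zero]; linarith)
    rw [hg0, Real.dist_eq, sub_zero] at this
    exact (le_abs_self _).trans_lt this
  have h3 : ft ρ ξ - ft ρ η = ∫ x, e (η * x) * (e ((ξ - η) * x) - 1) ∂ρ := by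
    unfold ft
    rw [← integral_sub (integrable_e ρ ξ) (integrable_e ρ η)]
    congr 1
    ext x
    rw [mul_sub, ← e_add, mul_one]
    congr 2
    ring
  rw [h3]
  refine (norm_integral_le_integral_norm _).trans ?_
  have h4 : (∫ x, ‖e (η * x) * (e ((ξ - η) * x) - 1)‖ ∂ρ) = g (ξ - η) := by
    simp only [g, norm_mul, norm_e, one_mul]
  rw [h4]
  exact h2.le

/-- Cesaro means of the powers of a unimodular number different from one. -/
lemma cesaro_pow {z : ℂ} (hz : ‖z‖ = 1) (hz1 : z ≠ 1) :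
    Tendsto (fun n : ℕ => (n : ℂ)⁻¹ * ∑ k ∈ Finset.range n, z ^ k) atTop (𝓝 0) := by
  have hb : ∀ n : ℕ, ‖(n : ℂ)⁻¹ * ∑ k ∈ Finset.range n, z ^ k‖ ≤ (2 / ‖z - 1‖) * (n : ℝ)⁻¹ := by
    intro n
    rw [geom_sum_eq hz1, norm_mul, norm_div, norm_inv, Complex.norm_natCast]
    have h1 : ‖z ^ n - 1‖ ≤ 2 := by
      calc ‖z ^ n - 1‖ ≤ ‖z ^ n‖ + ‖(1 : ℂ)‖ := norm_sub_le _ _
        _ = 2 := by rw [norm_pow, hz]; norm_num
    have h2 : 0 < ‖z - 1‖ := norm_pos_iff.2 (sub_ne_zero.2 hz1)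
    have h3 : (0 : ℝ) ≤ (n : ℝ)⁻¹ := by positivity
    calc (n : ℝ)⁻¹ * (‖z ^ n - 1‖ / ‖z - 1‖) ≤ (n : ℝ)⁻¹ * (2 / ‖z - 1‖) := by gcongr
      _ = _ := mul_comm _ _
  refine squeeze_zero_norm hb ?_
  have := (tendsto_inv_atTop_nhds_zero_nat (𝕜 := ℝ)).const_mul (2 / ‖z - 1‖)
  simpa using this

lemma norm_cesaro_le {z : ℕ → ℂ} (hz : ∀ k, ‖z k‖ ≤ 1) (n : ℕ) :
    ‖(n : ℂ)⁻¹ * ∑ k ∈ Finset.range n, z k‖ ≤ 1 := by
  rw [norm_mul, norm_inv, Complex.norm_natCast]
  rcases Nat.eq_zero_or_pos n with rfl | hn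
  · simp
  have hn' : (0 : ℝ) < n := by exact_mod_cast hn
  have h1 : ‖∑ k ∈ Finset.range n, z k‖ ≤ n := by
    refine (norm_sum_le _ _).trans ?_
    calc ∑ k ∈ Finset.range n, ‖z k‖ ≤ ∑ k ∈ Finset.range n, (1 : ℝ) :=
          Finset.sum_le_sum (fun k _ => hz k)
      _ = n := by simp
  rw [inv_mul_le_iff₀ hn']
  linarith

lemma normsq_ft (ρ : Measure ℝ) [IsFiniteMeasure ρ] (ξ : ℝ) :
    ((‖ft ρ ξ‖ ^ 2 : ℝ) : ℂ) = ∫ z : ℝ × ℝ, e (ξ * (z.1 - z.2)) ∂(ρ.prod ρ) := by
  have h1 : ((‖ft ρ ξ‖ ^ 2 : ℝ) : ℂ) = ft ρ ξ * (starRingEnd ℂ) (ft ρ ξ) := by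
    rw [Complex.mul_conj, Complex.normSq_eq_norm_sq]
  rw [h1]
  unfold ft
  rw [← integral_conj, ← integral_prod_mul]
  congr 1
  ext z
  rw [← e_neg, ← e_add]
  congr 1
  ring

/-- Wiener's lemma for measures without atoms, discrete averages. -/
lemma wiener (ρ : Measure ℝ) [IsFiniteMeasure ρ] [NullSingletonClass ρ] (b r : ℝ) (hr : 0 < r) :
    Tendsto (fun n : ℕ => (n : ℝ)⁻¹ * ∑ k ∈ Finset.range n, ‖ft ρ (b + k * r)‖ ^ 2) atTop
      (𝓝 0) := by
  have key : Tendsto (fun n : ℕ => ∫ z : ℝ × ℝ, (n : ℂ)⁻¹ * ∑ k ∈ Finset.range n,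
      e ((b + k * r) * (z.1 - z.2)) ∂(ρ.prod ρ)) atTop (𝓝 (∫ z : ℝ × ℝ, (0 : ℂ) ∂(ρ.prod ρ))) := by
    refine tendsto_integral_of_dominated_convergence (fun _ => (1 : ℝ)) ?_ (integrable_const _)
      ?_ ?_
    · intro n
      apply Continuous.aestronglyMeasurable
      refine continuous_const.mul (continuous_finsetSum _ (fun k _ => ?_))
      exact continuous_e.comp (by fun_prop)
    · intro n
      exact Eventually.of_forall (fun z => norm_cesaro_le (fun k => by simp) n)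
    · have hnull : ∀ᵐ z : ℝ × ℝ ∂(ρ.prod ρ), e (r * (z.1 - z.2)) ≠ 1 := by
        rw [ae_iff]
        have hm : MeasurableSet {z : ℝ × ℝ | ¬ (e (r * (z.1 - z.2)) ≠ 1)} := by
          have hc : Continuous (fun z : ℝ × ℝ => e (r * (z.1 - z.2))) :=
            continuous_e.comp (by fun_prop)
          have : {z : ℝ × ℝ | ¬ (e (r * (z.1 - z.2)) ≠ 1)} =
              (fun z : ℝ × ℝ => e (r * (z.1 - z.2))) ⁻¹' {1} := by
            ext z; simp
          rw [this]
          exact (isClosed_singleton.preimage hc).measurableSet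
        rw [Measure.measure_prod_null hm]
        refine Eventually.of_forall (fun x => ?_)
        have hc : (Prod.mk x ⁻¹' {z : ℝ × ℝ | ¬ (e (r * (z.1 - z.2)) ≠ 1)}).Countable := by
          have h1 : (Prod.mk x ⁻¹' {z : ℝ × ℝ | ¬ (e (r * (z.1 - z.2)) ≠ 1)}) =
              (fun y : ℝ => r * (x - y)) ⁻¹' {u : ℝ | e u = 1} := by
            ext y; simp
          rw [h1]
          refine countable_e_eq_one.preimage_of_injOn ?_
          intro y _ y' _ h
          have h2 : x - y = x - y' := mul_left_cancel₀ hr.ne' h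
          linarith
        exact hc.measure_zero ρ
      filter_upwards [hnull] with z hz
      have h1 : ∀ n : ℕ, (n : ℂ)⁻¹ * ∑ k ∈ Finset.range n, e ((b + k * r) * (z.1 - z.2)) =
          e (b * (z.1 - z.2)) * ((n : ℂ)⁻¹ * ∑ k ∈ Finset.range n, e (r * (z.1 - z.2)) ^ k) := by
        intro n
        rw [mul_left_comm, Finset.mul_sum (Finset.range n) _ (e (b * (z.1 - z.2)))]
        refine congrArg (fun t => (n : ℂ)⁻¹ * t) (Finset.sum_congr rfl (fun k _ => ?_))
        rw [← e_nat_mul, ← e_add]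
        congr 1
        ring
      simp_rw [h1]
      have := (cesaro_pow (norm_e (r * (z.1 - z.2))) hz).const_mul (e (b * (z.1 - z.2)))
      simpa using this
  have h2 : ∀ n : ℕ, (((n : ℝ)⁻¹ * ∑ k ∈ Finset.range n, ‖ft ρ (b + k * r)‖ ^ 2 : ℝ) : ℂ) =
      ∫ z : ℝ × ℝ, (n : ℂ)⁻¹ * ∑ k ∈ Finset.range n,
      e ((b + k * r) * (z.1 - z.2)) ∂(ρ.prod ρ) := by
    intro n
    rw [integral_const_mul, integral_finsetSum]
    · push_cast
      congr 1
      refine Finset.sum_congr rfl (fun k _ => ?_)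
      rw [← normsq_ft]
      push_cast
      rfl
    · intro k _
      refine (integrable_const (1 : ℝ)).mono' ?_ ?_
      · exact (continuous_e.comp (by fun_prop)).aestronglyMeasurable
      · exact Eventually.of_forall (fun z => by simp)
  simp_rw [← h2] at key
  simp only [integral_zero] at key
  have h3 := (Complex.continuous_re.tendsto _).comp key
  simpa only [Function.comp_def, Complex.ofReal_re, Complex.zero_re] using h3

end Pool.Agent.P8H68.AS
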