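import Mathlib

/-!
# A finite version of Bohr's lemma, and logarithm estimates
-/

open Filter Topology Set

namespace Pool.Agent.P8H68.AS

/-- If `|w| ≤ 1/2` and `|exp w - 1| < 1/8` then `|w| < 1/4`. -/
lemma small_of_exp {w : ℂ} (h1 : ‖w‖ ≤ 1 / 2) (h2 : ‖Complex.exp w - 1‖ < 1 / 8) :
    ‖w‖ < 1 / 4 := by
  have h3 := Complex.norm_exp_sub_one_sub_id_le (x := w) (by linarith)
  have h4 : ‖w‖ ≤ ‖Complex.exp w - 1‖ + ‖Complex.exp w - 1 - w‖ := by
    have : w = (Complex.exp w - 1) - (Complex.exp w - 1 - w) := by ring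
    calc ‖w‖ = ‖(Complex.exp w - 1) - (Complex.exp w - 1 - w)‖ := by rw [← this]
      _ ≤ _ := norm_sub_le _ _
  have h5 : ‖w‖ ^ 2 ≤ ‖w‖ / 2 := by nlinarith [norm_nonneg w]
  linarith

/-- Continuity argument: a continuous function `u` on an interval, vanishing at the left end, with
`|exp u - 1| < 1/8` everywhere, is bounded by `1/4`. -/
lemma bounded_of_exp {u : ℝ → ℂ} {a b : ℝ} (hab : a ≤ b) (hu : ContinuousOn u (Icc a b))
    (hua : u a = 0) (h : ∀ t ∈ Icc a b, ‖Complex.exp (u t) - 1‖ < 1 / 8) :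
    ∀ t ∈ Icc a b, ‖u t‖ < 1 / 4 := by
  intro t ht
  by_contra hcon
  push Not at hcon
  have hcont : ContinuousOn (fun s => ‖u s‖) (Icc a t) :=
    (hu.mono (Icc_subset_Icc le_rfl ht.2)).norm
  have hiv := intermediate_value_Icc ht.1 hcont
  have hmem : (1 / 4 : ℝ) ∈ Icc (‖u a‖) (‖u t‖) := by
    rw [hua, norm_zero]
    exact ⟨by norm_num, hcon⟩
  obtain ⟨s, hs, hs2⟩ := hiv hmem
  simp only at hs2
  have := small_of_exp (w := u s) (by rw [hs2]; norm_num) (h s ⟨hs.1, hs.2.trans ht.2⟩)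
  linarith

/-- Finite version of Bohr's lemma. -/
lemma bohr (g : ℝ → ℂ) {A L T R : ℝ} (hA0 : 1 ≤ A) (hL : 0 ≤ L) (hT : 0 ≤ T)
    (hA : ∀ ξ η, ‖g ξ - g η‖ ≤ A * (1 + |ξ - η|)) (hR : 16 * A * (T + 1 + L) ^ 2 ≤ R)
    (hap : ∀ a : ℝ, ∃ τ ∈ Icc a (a + L), ∃ K : ℂ, ∀ ξ, 0 ≤ ξ → ξ + τ ≤ R → 
      0 ≤ τ → ‖g (ξ + τ) - g ξ - K‖ ≤ 1) :
    ∃ c : ℂ, ‖c‖ ≤ 2 * A ∧ ∀ ξ ∈ Icc (0 : ℝ) T, ‖g ξ - g 0 - c * ξ‖ ≤ 3 + A * (4 + 3 * L) := by
  have hR1 : 1 ≤ R := by nlinarith [mul_nonneg hT hL, mul_nonneg hT hT, mul_nonneg hL hL]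
  have hR0 : 0 < R := by linarith
  refine ⟨(g R - g 0) / R, ?_, ?_⟩
  · rw [norm_div, Complex.norm_real, Real.norm_of_nonneg hR0.le, div_le_iff₀ hR0]
    have := hA R 0
    rw [sub_zero, abs_of_pos hR0] at this
    nlinarith
  set c : ℂ := (g R - g 0) / R with hc
  have hcR : c * R = g R - g 0 := by
    rw [hc]
    have : (R : ℂ) ≠ 0 := by exact_mod_cast hR0.ne'
    field_simp
  have hcn : ‖c‖ ≤ 2 * A := by
    rw [hc, norm_div, Complex.norm_real, Real.norm_of_nonneg hR0.le, div_le_iff₀ hR0]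
    have := hA R 0
    rw [sub_zero, abs_of_pos hR0] at this
    nlinarith
  intro ξ hξ
  obtain ⟨τ, hτ, K, hK⟩ := hap (ξ + 1)
  have hτ1 : 1 ≤ τ := by linarith [hτ.1, hξ.1]
  have hτ0 : 0 < τ := by linarith
  have hτT : τ ≤ T + 1 + L := by linarith [hτ.2, hξ.2]
  have hRτ : 16 * A * τ ^ 2 ≤ R := by
    refine le_trans ?_ hR
    gcongr
  set n : ℕ := ⌊R / τ⌋₊ with hn
  have hn1 : (n : ℝ) * τ ≤ R := by
    have := Nat.floor_le (show 0 ≤ R / τ by positivity)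
    rw [← hn, le_div_iff₀ hτ0] at this
    exact this
  have hn2 : R < ((n : ℝ) + 1) * τ := by
    have := Nat.lt_floor_add_one (R / τ)
    rw [← hn, div_lt_iff₀ hτ0] at this
    exact this
  -- telescoping
  have htel : ∀ m : ℕ, (m : ℝ) * τ ≤ R → ‖g (m * τ) - g 0 - m * K‖ ≤ m := by
    intro m
    induction m with
    | zero => intro _; simp
    | succ m ih =>
      intro hm
      push_cast at hm ⊢
      have hm' : (m : ℝ) * τ ≤ R := by nlinarith
      have h1 := ih hm'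
      have h2 := hK (m * τ) (by positivity) (by linarith) hτ0.le
      have h3 : g ((m + 1) * τ) - g 0 - (m + 1) * K = (g (m * τ) - g 0 - m * K) +
          (g (m * τ + τ) - g (m * τ) - K) := by
        rw [show ((m : ℝ) + 1) * τ = m * τ + τ by ring]
        ring
      rw [h3]
      exact (norm_add_le _ _).trans (add_le_add h1 h2)
  have h1 := htel n hn1
  have h2 : ‖g R - g (n * τ)‖ ≤ A * (1 + τ) := by
    refine (hA _ _).trans ?_
    have : |R - n * τ| ≤ τ := by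
      rw [abs_of_nonneg (by linarith)]
      linarith
    gcongr
  have h3 : ‖c * (n * τ : ℝ) - c * R‖ ≤ 2 * A * τ := by
    rw [← mul_sub, norm_mul]
    have : ‖(((n * τ : ℝ) : ℂ) - R)‖ ≤ τ := by
      rw [← Complex.ofReal_sub, Complex.norm_real, Real.norm_eq_abs, abs_sub_comm,
        abs_of_nonneg (by linarith)]
      linarith
    calc ‖c‖ * ‖(((n * τ : ℝ) : ℂ) - R)‖ ≤ (2 * A) * τ := by gcongr
      _ = _ := rfl
  have hn0 : (0 : ℝ) < n := by
    by_contra hcon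
    have : (n : ℝ) = 0 := le_antisymm (not_lt.1 hcon) (Nat.cast_nonneg n)
    rw [this] at hn2
    nlinarith
  have h4 : (n : ℝ) * ‖c * τ - K‖ ≤ 2 * A * τ + A * (1 + τ) + n := by
    have h5 : (n : ℂ) * (c * τ - K) = (c * (n * τ : ℝ) - c * R) + (g R - g (n * τ)) +
        (g (n * τ) - g 0 - n * K) := by
      rw [hcR]; push_cast; ring
    have h6 : (n : ℝ) * ‖c * τ - K‖ = ‖(n : ℂ) * (c * τ - K)‖ := by
      rw [norm_mul, Complex.norm_natCast]
    rw [h6, h5]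
    refine (norm_add_le _ _).trans (add_le_add ((norm_add_le _ _).trans (add_le_add h3 h2)) h1)
  have h7 : ‖c * τ - K‖ ≤ 2 := by
    have h8 : 2 * A * τ + A * (1 + τ) ≤ n := by
      -- n ≥ R/τ - 1
      have h9 : 16 * A * τ ^ 2 < ((n : ℝ) + 1) * τ := lt_of_le_of_lt hRτ hn2
      have h10 : 16 * A * τ < (n : ℝ) + 1 := by
        have : (16 * A * τ) * τ < ((n : ℝ) + 1) * τ := by nlinarith
        exact lt_of_mul_lt_mul_right this hτ0.le
      nlinarith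
    have h11 : (n : ℝ) * ‖c * τ - K‖ ≤ n * 2 := by linarith
    exact le_of_mul_le_mul_left h11 hn0
  have h8 := hK 0 le_rfl (by nlinarith) hτ0.le
  rw [zero_add] at h8
  have h9 := hA ξ τ
  have h10 : |ξ - τ| ≤ 1 + L := by
    rw [abs_sub_comm, abs_of_nonneg (by linarith [hτ.1])]
    linarith [hτ.2]
  have h11 : ‖c * τ - c * ξ‖ ≤ 2 * A * (1 + L) := by
    rw [← mul_sub, norm_mul]
    have : ‖((τ : ℂ) - ξ)‖ ≤ 1 + L := by
      rw [← Complex.ofReal_sub, Complex.norm_real, Real.norm_eq_abs, abs_sub_comm]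
      exact h10
    gcongr
  have h12 : g ξ - g 0 - c * ξ = (g ξ - g τ) + (g τ - g 0 - K) - (c * τ - K) +
      (c * τ - c * ξ) := by ring
  rw [h12]
  have n1 := norm_add_le ((g ξ - g τ) + (g τ - g 0 - K) - (c * τ - K)) (c * τ - c * ξ)
  have n2 := norm_sub_le ((g ξ - g τ) + (g τ - g 0 - K)) (c * τ - K)
  have n3 := norm_add_le (g ξ - g τ) (g τ - g 0 - K)
  have h13 : A * (1 + |ξ - τ|) ≤ A * (2 + L) := by
    have : 1 + |ξ - τ| ≤ 2 + L := by linarith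
    gcongr
  nlinarith

end Pool.Agent.P8H68.AS
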