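import Pool.Agent.P8H68.AS.Mean

/-!
# Weak limits of bounded sequences in `L¹(ℝ)` are Fourier-Stieltjes transforms
-/

open MeasureTheory Filter Topology Set FourierTransform
open scoped BigOperators ENNReal NNReal BoundedContinuousFunction

namespace Pool.Agent.P8H68.AS

/-- Extension by zero to the extended line. -/
noncomputable def ext0 (g : ℝ → ℂ) (x : EReal) : ℂ := if x = ⊤ ∨ x = ⊥ then 0 else g x.toReal

@[simp] lemma ext0_coe (g : ℝ → ℂ) (x : ℝ) : ext0 g (x : EReal) = g x := by
  simp [ext0]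

@[simp] lemma ext0_top (g : ℝ → ℂ) : ext0 g ⊤ = 0 := by simp [ext0]

@[simp] lemma ext0_bot (g : ℝ → ℂ) : ext0 g ⊥ = 0 := by simp [ext0]

lemma continuous_ext0 {g : ℝ → ℂ} (hg : Continuous g) (h0 : Tendsto g (cocompact ℝ) (𝓝 0)) :
    Continuous (ext0 g) := by
  have hfar : ∀ ε : ℝ, 0 < ε → ∃ R : ℝ, ∀ x : ℝ, (R < x ∨ x < -R) → ‖g x‖ < ε := by
    intro ε hε
    have h1 : ∀ᶠ x in cocompact ℝ, ‖g x‖ < ε := by
      have := h0.norm
      rw [norm_zero] at this
      exact this.eventually (gt_mem_nhds hε)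
    rw [cocompact_eq_atBot_atTop, eventually_sup] at h1
    obtain ⟨h2, h3⟩ := h1
    obtain ⟨a, ha⟩ := eventually_atBot.1 h2
    obtain ⟨b, hb⟩ := eventually_atTop.1 h3
    refine ⟨max (-a) b, fun x hx => ?_⟩
    rcases hx with hx | hx
    · exact hb x ((le_max_right _ _).trans hx.le)
    · refine ha x ?_
      have := le_max_left (-a) b
      linarith
  rw [continuous_iff_continuousAt]
  intro x
  induction x with
  | bot =>
    rw [ContinuousAt, ext0_bot, Metric.tendsto_nhds]
    intro ε hε
    obtain ⟨R, hR⟩ := hfar ε hε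
    have h1 : ∀ᶠ x : EReal in 𝓝 ⊥, x < ((-R : ℝ) : EReal) := gt_mem_nhds (EReal.bot_lt_coe _)
    filter_upwards [h1] with x hx
    rw [dist_zero_right]
    induction x with
    | bot => simpa using hε
    | top => simpa using hε
    | coe x =>
      rw [ext0_coe]
      exact hR x (Or.inr (EReal.coe_lt_coe_iff.1 hx))
  | top =>
    rw [ContinuousAt, ext0_top, Metric.tendsto_nhds]
    intro ε hε
    obtain ⟨R, hR⟩ := hfar ε hε
    have h1 : ∀ᶠ x : EReal in 𝓝 ⊤, ((R : ℝ) : EReal) < x := lt_mem_nhds (EReal.coe_lt_top _)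
    filter_upwards [h1] with x hx
    rw [dist_zero_right]
    induction x with
    | bot => simpa using hε
    | top => simpa using hε
    | coe x =>
      rw [ext0_coe]
      exact hR x (Or.inl (EReal.coe_lt_coe_iff.1 hx))
  | coe x =>
    rw [← EReal.isOpenEmbedding_coe.continuousAt_iff]
    have : ext0 g ∘ (fun y : ℝ => (y : EReal)) = g := by
      ext y; simp
    exact (this ▸ hg.continuousAt : ContinuousAt (ext0 g ∘ (fun y : ℝ => (y : EReal))) x)

/-- The restriction to the line of a finite measure on the extended line. -/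
noncomputable def down (m : Measure EReal) : Measure ℝ := m.comap (fun y : ℝ => (y : EReal))

lemma isFiniteMeasure_down (m : Measure EReal) [IsFiniteMeasure m] : IsFiniteMeasure (down m) := by
  refine ⟨?_⟩
  unfold down
  rw [EReal.measurableEmbedding_coe.comap_apply]
  exact measure_lt_top _ _

lemma integral_ext0 (m : Measure EReal) (g : ℝ → ℂ) :
    ∫ x, ext0 g x ∂m = ∫ x, g x ∂(down m) := by
  have h1 : ∫ x, ext0 g x ∂m = ∫ x in range (fun y : ℝ => (y : EReal)), ext0 g x ∂m := by
    rw [setIntegral_eq_integral_of_forall_compl_eq_zero]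
    intro x hx
    induction x with
    | bot => simp
    | top => simp
    | coe x => exact absurd (mem_range_self x) hx
  rw [h1, ← EReal.measurableEmbedding_coe.map_comap, EReal.measurableEmbedding_coe.integral_map]
  simp [down]

/-- A bounded sequence of positive integrable functions has, along a suitable ultrafilter, a weak
limit which is a finite measure, when tested on continuous functions vanishing at infinity. -/
lemma exists_limit (p : Fin 4 → ℕ → ℝ → ℝ) (hp : ∀ j k x, 0 ≤ p j k x)
    (hi : ∀ j k, Integrable (p j k)) {C : ℝ} (hC : ∀ j k, ∫ x, p j k x ≤ C) :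
    ∃ ρ : Fin 4 → Measure ℝ, (∀ j, IsFiniteMeasure (ρ j)) ∧
      ∀ j, ∀ g : ℝ → ℂ, Continuous g → Tendsto g (cocompact ℝ) (𝓝 0) →
        Tendsto (fun k => ∫ x, (p j k x : ℂ) * g x) (hyperfilter ℕ : Filter ℕ)
          (𝓝 (∫ x, g x ∂(ρ j))) := by
  have hC0 : 0 ≤ C := (integral_nonneg (fun x => hp 0 0 x)).trans (hC 0 0)
  let q : Fin 4 → ℕ → ℝ → ℝ≥0 := fun j k x => Real.toNNReal (p j k x)
  let ν : Fin 4 → ℕ → Measure ℝ := fun j k => volume.withDensity (fun x => (q j k x : ℝ≥0∞))
  have hνm : ∀ j k, ν j k univ ≤ ENNReal.ofReal C := by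
    intro j k
    simp only [ν]
    rw [withDensity_apply _ MeasurableSet.univ, Measure.restrict_univ]
    have h1 : ∫⁻ x, (q j k x : ℝ≥0∞) = ENNReal.ofReal (∫ x, p j k x) := by
      rw [ofReal_integral_eq_lintegral_ofReal (hi j k) (Eventually.of_forall (hp j k))]
      rfl
    rw [h1]
    exact ENNReal.ofReal_le_ofReal (hC j k)
  have hνf : ∀ j k, IsFiniteMeasure (ν j k) := fun j k => ⟨(hνm j k).trans_lt (by simp)⟩
  let C' : ℝ≥0 := Real.toNNReal C
  let μ : Fin 4 → ℕ → FiniteMeasure EReal := fun j k =>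
    ⟨(ν j k).map (fun y : ℝ => (y : EReal)), by
      have := hνf j k
      infer_instance⟩
  have hμ : ∀ j k, (μ j k).mass ≤ C' := by
    intro j k
    have h1 : ((μ j k).mass : ℝ≥0∞) = (ν j k) univ := by
      rw [FiniteMeasure.ennreal_mass]
      simp only [μ, FiniteMeasure.toMeasure_mk]
      rw [Measure.map_apply (by fun_prop) MeasurableSet.univ, preimage_univ]
    have h2 : ((μ j k).mass : ℝ≥0∞) ≤ (C' : ℝ≥0∞) := by
      rw [h1]; exact hνm j k
    exact_mod_cast h2
  have hK : IsCompact (Set.pi univ (fun _ : Fin 4 => {μ : FiniteMeasure EReal | μ.mass ≤ C'})) :=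
    isCompact_univ_pi (fun _ => isCompact_setOfPred_finiteMeasure_le_of_compactSpace EReal C')
  obtain ⟨m, -, hm⟩ := hK.ultrafilter_le_nhds ((hyperfilter ℕ).map (fun k j => μ j k)) (by
    rw [le_principal_iff]
    refine Ultrafilter.mem_map.2 (Filter.Eventually.of_forall (fun k => ?_))
    intro j _
    exact hμ j k)
  have hm' : ∀ j, Tendsto (fun k => μ j k) (hyperfilter ℕ : Filter ℕ) (𝓝 (m j)) := by
    intro j
    have h1 : Tendsto (fun k j => μ j k) (hyperfilter ℕ : Filter ℕ) (𝓝 m) := hm
    exact (tendsto_pi_nhds.1 h1) j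
  refine ⟨fun j => down (m j), fun j => isFiniteMeasure_down _, fun j g hg hg0 => ?_⟩
  have h1 := (FiniteMeasure.tendsto_iff_forall_integral_rclike_tendsto ℂ).1 (hm' j)
    (BoundedContinuousFunction.mkOfCompact ⟨ext0 g, continuous_ext0 hg hg0⟩)
  simp only [BoundedContinuousFunction.mkOfCompact_apply, ContinuousMap.coe_mk] at h1
  rw [integral_ext0] at h1
  refine h1.congr (fun k => ?_)
  simp only [μ, FiniteMeasure.toMeasure_mk]
  rw [EReal.measurableEmbedding_coe.integral_map]
  simp only [ext0_coe, ν]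
  rw [integral_withDensity_eq_integral_smul₀]
  · refine integral_congr_ae (Eventually.of_forall (fun x => ?_))
    simp only [q]
    rw [NNReal.smul_def, Real.coe_toNNReal _ (hp j k x), Complex.real_smul]
  · exact (hi j k).aemeasurable.real_toNNReal

end Pool.Agent.P8H68.AS
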