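import Pool.Agent.P8H68.AS.AP
import Pool.Agent.P8H68.AS.Bohr

/-!
# The core theorem
-/

open MeasureTheory Filter Topology Set
open scoped BigOperators ENNReal Interval

namespace Pool.Agent.P8H68.AS

lemma lip_of_osc {ψ : ℝ → ℂ} {r : ℝ} (hr : 0 < r)
    (h : ∀ ξ η, |ξ - η| ≤ r → ‖ψ ξ - ψ η‖ ≤ 1) :
    ∃ A : ℝ, 1 ≤ A ∧ ∀ ξ η, ‖ψ ξ - ψ η‖ ≤ A * (1 + |ξ - η|) := by
  have h1 : ∀ n : ℕ, ∀ ξ η, |ξ - η| ≤ n * r → ‖ψ ξ - ψ η‖ ≤ n := by
    intro n
    induction n with
    | zero =>
      intro ξ η hh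
      have : ξ = η := by
        have h0 : |ξ - η| ≤ 0 := by simpa using hh
        have := abs_nonpos_iff.1 h0
        linarith
      subst this
      simp
    | succ n ih =>
      intro ξ η hh
      push_cast at hh ⊢
      by_cases hc : |ξ - η| ≤ n * r
      · linarith [ih ξ η hc]
      · push Not at hc
        rcases le_total ξ η with hle | hle
        · rw [abs_sub_comm, abs_of_nonneg (by linarith)] at hh hc
          have e1 := ih ξ (ξ + n * r) (by
            rw [abs_sub_comm, abs_of_nonneg (by simp; positivity)]; linarith)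
          have e2 := h (ξ + n * r) η (by
            rw [abs_sub_comm, abs_of_nonneg (by linarith)]; linarith)
          calc ‖ψ ξ - ψ η‖ = ‖(ψ ξ - ψ (ξ + n * r)) + (ψ (ξ + n * r) - ψ η)‖ := by congr 1; ring
            _ ≤ _ := (norm_add_le _ _).trans (add_le_add e1 e2)
        · rw [abs_of_nonneg (by linarith)] at hh hc
          have e1 := ih (η + n * r) η (by
            rw [abs_of_nonneg (by simp; positivity)]; linarith)
          have e2 := h ξ (η + n * r) (by
            rw [abs_of_nonneg (by linarith)]; linarith)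
          calc ‖ψ ξ - ψ η‖ = ‖(ψ (η + n * r) - ψ η) + (ψ ξ - ψ (η + n * r))‖ := by congr 1; ring
            _ ≤ _ := (norm_add_le _ _).trans (add_le_add e1 e2)
  refine ⟨max 1 (1 / r), le_max_left _ _, fun ξ η => ?_⟩
  have h2 := h1 ⌈|ξ - η| / r⌉₊ ξ η (by
    have := Nat.le_ceil (|ξ - η| / r)
    rwa [div_le_iff₀ hr] at this)
  have h3 : (⌈|ξ - η| / r⌉₊ : ℝ) ≤ |ξ - η| / r + 1 := (Nat.ceil_lt_add_one (by positivity)).le
  have h4 : |ξ - η| / r ≤ max 1 (1 / r) * |ξ - η| := by
    rw [div_eq_mul_one_div, mul_comm]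
    exact mul_le_mul_of_nonneg_right (le_max_right _ _) (abs_nonneg _)
  have h5 : (1 : ℝ) ≤ max 1 (1 / r) := le_max_left _ _
  rw [mul_add]
  linarith

lemma norm_exp_neg_I (y : ℝ) (z : ℂ) : ‖Complex.exp (-(y * Complex.I) * z)‖ =
    Real.exp (y * z.im) := by
  rw [Complex.norm_exp]
  congr 1
  simp

lemma integral_exp_neg (s : ℝ) {z : ℂ} (hz : z ≠ 0) :
    ∫ y in (0 : ℝ)..s, Complex.exp (-(y * Complex.I) * z) =
      (Complex.exp (-(s * Complex.I) * z) - 1) / (-(Complex.I * z)) := by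
  have h := integral_exp_mul_complex (a := 0) (b := s) (c := -(Complex.I * z))
    (neg_ne_zero.2 (mul_ne_zero Complex.I_ne_zero hz))
  have h2 : ∀ y : ℝ, Complex.exp (-(Complex.I * z) * y) = Complex.exp (-(y * Complex.I) * z) := by
    intro y; congr 1; ring
  simp_rw [h2] at h
  rw [h]
  simp

lemma ae_zero {z : ℕ → ℂ} {M : ℝ} (hM0 : 0 ≤ M) (hM : ∀ k, (z k).im ≤ M)
    (hz : Tendsto (fun k => ‖z k‖) atTop atTop) {G : ℝ → ℂ}
    (hG : ∀ y ∈ Icc (0 : ℝ) 1, Tendsto (fun n : ℕ => (n : ℂ)⁻¹ * ∑ k ∈ Finset.range n,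
      Complex.exp (-(y * Complex.I) * z k)) atTop (𝓝 (G y))) :
    ∀ᵐ y : ℝ, y ∈ Icc (0 : ℝ) 1 → G y = 0 := by
  let H : ℕ → ℝ → ℂ := fun n y => (n : ℂ)⁻¹ * ∑ k ∈ Finset.range n,
      Complex.exp (-(y * Complex.I) * z k)
  have hHc : ∀ n, Continuous (H n) := by
    intro n
    refine continuous_const.mul (continuous_finsetSum _ (fun k _ => ?_))
    exact Complex.continuous_exp.comp (by fun_prop)
  have hHb : ∀ n, ∀ y ∈ Icc (0 : ℝ) 1, ‖H n y‖ ≤ Real.exp M := by
    intro n y hy
    simp only [H]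
    rw [norm_mul, norm_inv, Complex.norm_natCast]
    rcases Nat.eq_zero_or_pos n with rfl | hn
    · simp; positivity
    have hn' : (0 : ℝ) < n := by exact_mod_cast hn
    rw [inv_mul_le_iff₀ hn']
    refine (norm_sum_le _ _).trans ?_
    calc ∑ k ∈ Finset.range n, ‖Complex.exp (-(y * Complex.I) * z k)‖
        ≤ ∑ k ∈ Finset.range n, Real.exp M := by
          refine Finset.sum_le_sum (fun k _ => ?_)
          rw [norm_exp_neg_I, Real.exp_le_exp]
          nlinarith [hM k, hy.1, hy.2]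
      _ = n * Real.exp M := by simp
  have hGm : AEStronglyMeasurable G (volume.restrict (Icc (0 : ℝ) 1)) := by
    refine aestronglyMeasurable_of_tendsto_ae (u := atTop) (f := H)
      (fun n => (hHc n).aestronglyMeasurable) ?_
    rw [ae_restrict_iff' measurableSet_Icc]
    exact Eventually.of_forall (fun y hy => hG y hy)
  have hGb : ∀ y ∈ Icc (0 : ℝ) 1, ‖G y‖ ≤ Real.exp M := by
    intro y hy
    exact le_of_tendsto (hG y hy).norm (Eventually.of_forall (fun n => hHb n y hy))
  have hGi : IntegrableOn G (Icc (0 : ℝ) 1) := by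
    refine Integrable.mono' (g := fun _ => Real.exp M) (integrable_const _) hGm ?_
    rw [ae_restrict_iff' measurableSet_Icc]
    exact Eventually.of_forall hGb
  have hGii : IntervalIntegrable G volume 0 1 := by
    rw [intervalIntegrable_iff_integrableOn_Icc_of_le zero_le_one]
    exact hGi
  -- the integrals vanish
  have hint : ∀ s ∈ Icc (0 : ℝ) 1, ∫ y in (0 : ℝ)..s, G y = 0 := by
    intro s hs
    have hsub : Ι (0 : ℝ) s ⊆ Icc (0 : ℝ) 1 := by
      rw [uIoc_of_le hs.1]
      exact fun y hy => ⟨hy.1.le, hy.2.trans hs.2⟩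
    have h1 : Tendsto (fun n => ∫ y in (0 : ℝ)..s, H n y) atTop (𝓝 (∫ y in (0 : ℝ)..s, G y)) := by
      refine intervalIntegral.tendsto_integral_filter_of_dominated_convergence
        (fun _ => Real.exp M) ?_ ?_ ?_ ?_
      · exact Eventually.of_forall (fun n => (hHc n).aestronglyMeasurable)
      · exact Eventually.of_forall (fun n => Eventually.of_forall (fun y hy => hHb n y (hsub hy)))
      · exact intervalIntegrable_const
      · exact Eventually.of_forall (fun y hy => hG y (hsub hy))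
    have h2 : ∀ n, ∫ y in (0 : ℝ)..s, H n y = ((n : ℝ)⁻¹ : ℝ) • ∑ k ∈ Finset.range n,
        ∫ y in (0 : ℝ)..s, Complex.exp (-(y * Complex.I) * z k) := by
      intro n
      simp only [H]
      rw [intervalIntegral.integral_const_mul, intervalIntegral.integral_finsetSum]
      · rw [Complex.real_smul]; push_cast; rfl
      · intro k _
        apply Continuous.intervalIntegrable
        exact Complex.continuous_exp.comp (by fun_prop)
    have h3 : Tendsto (fun k => ∫ y in (0 : ℝ)..s, Complex.exp (-(y * Complex.I) * z k)) atTop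
        (𝓝 0) := by
      have hb : ∀ᶠ k in atTop, ‖∫ y in (0 : ℝ)..s, Complex.exp (-(y * Complex.I) * z k)‖ ≤
          (Real.exp M + 1) * (‖z k‖)⁻¹ := by
        filter_upwards [hz.eventually_gt_atTop 0] with k hk
        have hk0 : z k ≠ 0 := norm_pos_iff.1 hk
        rw [integral_exp_neg s hk0, norm_div, norm_neg, norm_mul, Complex.norm_I, one_mul,
          div_eq_mul_inv]
        gcongr
        refine (norm_sub_le _ _).trans ?_
        rw [norm_exp_neg_I, norm_one]
        have : Real.exp (s * (z k).im) ≤ Real.exp M := by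
          rw [Real.exp_le_exp]
          nlinarith [hM k, hs.1, hs.2]
        linarith
      refine squeeze_zero_norm' hb ?_
      have := (tendsto_inv_atTop_zero.comp hz).const_mul (Real.exp M + 1)
      simpa [Function.comp_def] using this
    have h4 := h3.cesaro_smul
    simp_rw [← h2] at h4
    exact tendsto_nhds_unique h1 h4
  have hae := hGii.ae_hasDerivAt_integral
  have hne0 : ∀ᵐ y : ℝ, y ≠ 0 := by simp [ae_iff, measure_singleton]
  have hne1 : ∀ᵐ y : ℝ, y ≠ 1 := by simp [ae_iff, measure_singleton]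
  filter_upwards [hae, hne0, hne1] with y hy hy0 hy1 hmem
  have hy' := hy (by rw [uIcc_of_le zero_le_one]; exact hmem) 0 (by
    rw [uIcc_of_le zero_le_one]; exact ⟨le_rfl, zero_le_one⟩)
  have hmem' : y ∈ Ioo (0 : ℝ) 1 := ⟨lt_of_le_of_ne hmem.1 (Ne.symm hy0),
    lt_of_le_of_ne hmem.2 hy1⟩
  have hz0 : HasDerivAt (fun x => ∫ (t : ℝ) in (0 : ℝ)..x, G t) 0 y := by
    refine (hasDerivAt_const y (0 : ℂ)).congr_of_eventuallyEq ?_
    filter_upwards [Ioo_mem_nhds hmem'.1 hmem'.2] with x hx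
    exact hint x ⟨hx.1.le, hx.2.le⟩
  exact hy'.unique hz0

end Pool.Agent.P8H68.AS
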