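import Pool.Agent.P8H68.AS.Core

/-!
# The core theorem, second part
-/

open MeasureTheory Filter Topology Set
open scoped BigOperators ENNReal Interval

namespace Pool.Agent.P8H68.AS

/-- On suitable long intervals the function `ψ` is linear up to a bounded error. -/
lemma near_linear {ψ : ℝ → ℂ} (hψ : Continuous ψ) {M : ℝ} (him : ∀ ξ, |(ψ ξ).im| ≤ M)
    {A : ℝ} (hA1 : 1 ≤ A) (hA : ∀ ξ η, ‖ψ ξ - ψ η‖ ≤ A * (1 + |ξ - η|))
    (hFS : IsFS (fun ξ => Complex.exp (-(((1 : ℝ) : ℂ) * Complex.I) * ψ ξ))) :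
    ∃ B : ℝ, 0 ≤ B ∧ ∀ T : ℝ, 0 ≤ T → ∃ (ξ0 : ℚ) (c : ℂ), ‖c‖ ≤ 2 * A ∧
      ∀ ξ ∈ Icc (0 : ℝ) T, ‖ψ (ξ0 + ξ) - ψ ξ0 - c * ξ‖ ≤ B := by
  have hM0 : 0 ≤ M := (abs_nonneg _).trans (him 0)
  have hε : 0 < Real.exp (-M) / 20 := by positivity
  obtain ⟨L, hL, hint⟩ := hFS.interval hε
  refine ⟨3 + A * (4 + 3 * L), by positivity, fun T hT => ?_⟩
  set R : ℝ := 16 * A * (T + 1 + L) ^ 2 with hR
  obtain ⟨ξ0, hξ0⟩ := hint R
  have hap : ∀ a : ℝ, ∃ τ ∈ Icc a (a + L), ∃ K : ℂ, ∀ ξ, 0 ≤ ξ → ξ + τ ≤ R →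
      0 ≤ τ → ‖ψ (ξ0 + (ξ + τ)) - ψ (ξ0 + ξ) - K‖ ≤ 1 := by
    intro a
    obtain ⟨τ, hτ, hτ2⟩ := hξ0 a
    refine ⟨τ, hτ, ψ (ξ0 + τ) - ψ ξ0, fun ξ hξ hξR hτ0 => ?_⟩
    let u : ℝ → ℂ := fun t => -Complex.I * (ψ (ξ0 + (t + τ)) - ψ (ξ0 + t) - (ψ (ξ0 + τ) - ψ ξ0))
    have hu : Continuous u := by
      have h1 : Continuous (fun t : ℝ => ψ (ξ0 + (t + τ))) := hψ.comp (by fun_prop)
      have h2 : Continuous (fun t : ℝ => ψ (ξ0 + t)) := hψ.comp (by fun_prop)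
      exact continuous_const.mul ((h1.sub h2).sub continuous_const)
    have hu0 : u 0 = 0 := by simp [u]
    -- quotient estimate
    have hq : ∀ t ∈ Icc (0 : ℝ) ξ,
        ‖Complex.exp (-Complex.I * (ψ (ξ0 + (t + τ)) - ψ (ξ0 + t))) - 1‖ ≤ 1 / 20 := by
      intro t ht
      have h1 := hτ2 (ξ0 + t) ⟨by linarith [ht.1], by linarith [ht.2]⟩
        ⟨by linarith [ht.1], by linarith [ht.2]⟩
      simp only [Complex.ofReal_one, one_mul] at h1
      have h2 : Complex.exp (-Complex.I * (ψ (ξ0 + (t + τ)) - ψ (ξ0 + t))) - 1 =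
          (Complex.exp (-Complex.I * ψ (ξ0 + t + τ)) - Complex.exp (-Complex.I * ψ (ξ0 + t))) *
          Complex.exp (Complex.I * ψ (ξ0 + t)) := by
        rw [sub_mul, ← Complex.exp_add, ← Complex.exp_add, add_assoc]
        congr 1
        · congr 1; ring
        · rw [show -Complex.I * ψ (ξ0 + t) + Complex.I * ψ (ξ0 + t) = 0 by ring, Complex.exp_zero]
      rw [h2, norm_mul]
      have h3 : ‖Complex.exp (Complex.I * ψ (ξ0 + t))‖ ≤ Real.exp M := by
        rw [Complex.norm_exp, Real.exp_le_exp]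
        have : (Complex.I * ψ (ξ0 + t)).re = -(ψ (ξ0 + t)).im := by simp
        rw [this]
        exact (neg_le_abs _).trans (him _)
      calc _ ≤ Real.exp (-M) / 20 * Real.exp M := by gcongr
        _ = 1 / 20 := by
          rw [div_mul_eq_mul_div, ← Real.exp_add]; simp
    have hb : ∀ t ∈ Icc (0 : ℝ) ξ, ‖Complex.exp (u t) - 1‖ < 1 / 8 := by
      intro t ht
      set p := Complex.exp (-Complex.I * (ψ (ξ0 + (t + τ)) - ψ (ξ0 + t))) with hp
      set q := Complex.exp (-Complex.I * (ψ (ξ0 + τ) - ψ ξ0)) with hqd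
      have e1 : ‖p - 1‖ ≤ 1 / 20 := hq t ht
      have e2 : ‖q - 1‖ ≤ 1 / 20 := by
        have := hq 0 ⟨le_rfl, hξ⟩
        rw [zero_add, add_zero] at this
        exact this
      have hq0 : q ≠ 0 := Complex.exp_ne_zero _
      have e3 : Complex.exp (u t) - 1 = (p - q) / q := by
        have : Complex.exp (u t) = p / q := by
          rw [hp, hqd, ← Complex.exp_sub]
          congr 1
          simp only [u]
          ring
        rw [this, sub_div, div_self hq0]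
      have e4 : 19 / 20 ≤ ‖q‖ := by
        have := norm_sub_norm_le (1 : ℂ) (1 - q)
        rw [norm_one] at this
        have e5 : (1 : ℂ) - (1 - q) = q := by ring
        rw [e5] at this
        have e6 : ‖1 - q‖ = ‖q - 1‖ := norm_sub_rev _ _
        linarith
      have e7 : ‖p - q‖ ≤ 1 / 10 := by
        calc ‖p - q‖ = ‖(p - 1) - (q - 1)‖ := by congr 1; ring
          _ ≤ ‖p - 1‖ + ‖q - 1‖ := norm_sub_le _ _
          _ ≤ _ := by linarith
      rw [e3, norm_div, div_lt_iff₀ (by linarith)]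
      linarith
    have hfin := bounded_of_exp (u := u) hξ hu.continuousOn hu0 hb ξ ⟨hξ, le_rfl⟩
    have h5 : ‖u ξ‖ = ‖ψ (ξ0 + (ξ + τ)) - ψ (ξ0 + ξ) - (ψ (ξ0 + τ) - ψ ξ0)‖ := by
      simp only [u]
      rw [norm_mul, norm_neg, Complex.norm_I, one_mul]
    linarith
  obtain ⟨c, hc, hc2⟩ := bohr (fun ξ => ψ (ξ0 + ξ)) hA1 hL hT (fun ξ η => by
    have := hA (ξ0 + ξ) (ξ0 + η)
    simpa using this) (le_of_eq hR.symm) hap
  refine ⟨ξ0, c, hc, fun ξ hξ => ?_⟩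
  have := hc2 ξ hξ
  simpa using this

/-- **Core theorem.** -/
theorem core {ψ : ℝ → ℂ} (hψ : Continuous ψ) {M : ℝ} (him : ∀ ξ, |(ψ ξ).im| ≤ M)
    (hre : Tendsto (fun ξ => (ψ ξ).re) (cocompact ℝ) atTop)
    {r : ℝ} (hr : 0 < r) (hosc : ∀ ξ η, |ξ - η| ≤ r → ‖ψ ξ - ψ η‖ ≤ 1)
    (hFS : ∀ y ∈ Icc (0 : ℝ) 1, IsFS (fun ξ => Complex.exp (-((y : ℂ) * Complex.I) * ψ ξ))) :
    False := by
  have hM0 : 0 ≤ M := (abs_nonneg _).trans (him 0)
  obtain ⟨A, hA1, hA⟩ := lip_of_osc hr hosc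
  obtain ⟨B, hB0, hB⟩ := near_linear hψ him hA1 hA (hFS 1 ⟨zero_le_one, le_rfl⟩)
  have hBm : ∀ m : ℕ, ∃ (ξ0 : ℚ) (c : ℂ), ‖c‖ ≤ 2 * A ∧
      ∀ ξ ∈ Icc (0 : ℝ) m, ‖ψ (ξ0 + ξ) - ψ ξ0 - c * ξ‖ ≤ B := fun m => hB m (Nat.cast_nonneg m)
  choose ξ0 cm hcm hlin using hBm
  -- a convergent subsequence
  obtain ⟨cs, _, φ, hφ, hφt⟩ := tendsto_subseq_of_bounded
    (Metric.isBounded_closedBall (x := (0 : ℂ)) (r := 2 * A)) (x := cm)
    (fun m => by rw [mem_closedBall_zero_iff]; exact hcm m)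
  have him_cm : ∀ m : ℕ, |(cm m).im| * m ≤ B + 2 * M := by
    intro m
    have h1 := hlin m m ⟨Nat.cast_nonneg m, le_rfl⟩
    have h2 := (Complex.abs_im_le_norm _).trans h1
    have h3 : (ψ (ξ0 m + m) - ψ (ξ0 m) - cm m * ((m : ℝ) : ℂ)).im =
        (ψ (ξ0 m + m)).im - (ψ (ξ0 m)).im - (cm m).im * m := by
      simp
    rw [h3] at h2
    have h4 := him (ξ0 m + m)
    have h5 := him (ξ0 m)
    have h6 : |(cm m).im| * m = |(cm m).im * m| := by
      rw [abs_mul, Nat.abs_cast]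
    rw [h6]
    have h7 : (cm m).im * m = (ψ (ξ0 m + m)).im - (ψ (ξ0 m)).im -
      ((ψ (ξ0 m + m)).im - (ψ (ξ0 m)).im - (cm m).im * m) := by ring
    rw [h7]
    refine (abs_sub _ _).trans ?_
    have h8 := abs_sub (ψ (ξ0 m + m)).im (ψ (ξ0 m)).im
    linarith
  have hcsim : cs.im = 0 := by
    have h1 : Tendsto (fun m => |(cm (φ m)).im|) atTop (𝓝 |cs.im|) :=
      ((Complex.continuous_im.tendsto _).comp hφt).abs
    have h2 : Tendsto (fun m : ℕ => (B + 2 * M) * ((m : ℝ))⁻¹) atTop (𝓝 0) := by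
      have := (tendsto_inv_atTop_nhds_zero_nat (𝕜 := ℝ)).const_mul (B + 2 * M)
      simpa using this
    have h3 : ∀ᶠ m in atTop, |(cm (φ m)).im| ≤ (B + 2 * M) * ((m : ℝ))⁻¹ := by
      filter_upwards [eventually_gt_atTop 0] with m hm
      have hm' : (0 : ℝ) < m := by exact_mod_cast hm
      rw [← div_eq_mul_inv, le_div_iff₀ hm']
      refine le_trans ?_ (him_cm (φ m))
      gcongr
      exact_mod_cast hφ.id_le m
    have h4 := le_of_tendsto_of_tendsto h1 h2 h3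
    exact abs_nonpos_iff.1 h4
  set c : ℝ := cs.re with hc
  have hcs : cs = (c : ℂ) := Complex.ext (by simp [hc]) (by simp [hcsim])
  -- the sign
  obtain ⟨σ, hσ, hσt⟩ : ∃ σ : ℝ, (σ = 1 ∨ σ = -1) ∧ ∀ a : ℝ,
      Tendsto (fun k : ℕ => (ψ (a + σ * k)).re - c * (a + σ * k)) atTop atTop := by
    rcases le_total c 0 with h0 | h0
    · refine ⟨1, Or.inl rfl, fun a => ?_⟩
      have h1 : Tendsto (fun k : ℕ => a + 1 * (k : ℝ)) atTop (cocompact ℝ) := by
        refine Tendsto.mono_right ?_ atTop_le_cocompact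
        simp only [one_mul]
        exact tendsto_atTop_add_const_left _ _ tendsto_natCast_atTop_atTop
      have h2 := tendsto_atTop_add_const_right atTop (-(c * a)) (hre.comp h1)
      refine tendsto_atTop_mono (fun k => ?_) h2
      simp only [Function.comp_apply]
      have : 0 ≤ -c * k := mul_nonneg (by linarith) (Nat.cast_nonneg k)
      linarith
    · refine ⟨-1, Or.inr rfl, fun a => ?_⟩
      have h1 : Tendsto (fun k : ℕ => a + -1 * (k : ℝ)) atTop (cocompact ℝ) := by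
        refine Tendsto.mono_right ?_ atBot_le_cocompact
        have : Tendsto (fun k : ℕ => -1 * (k : ℝ)) atTop atBot := by
          simp only [neg_mul, one_mul]
          exact tendsto_neg_atTop_atBot.comp tendsto_natCast_atTop_atTop
        exact tendsto_atBot_add_const_left _ _ this
      have h2 := tendsto_atTop_add_const_right atTop (-(c * a)) (hre.comp h1)
      refine tendsto_atTop_mono (fun k => ?_) h2
      simp only [Function.comp_apply]
      have : 0 ≤ c * k := mul_nonneg h0 (Nat.cast_nonneg k)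
      linarith
  -- the means
  have hmean : ∀ y : ℝ, ∃ (G : ℝ → ℂ) (δ : ℕ → ℝ), y ∈ Icc (0 : ℝ) 1 →
      (Tendsto δ atTop (𝓝 0) ∧ ∀ (σ : ℝ), (σ = 1 ∨ σ = -1) → ∀ (a : ℝ) (n : ℕ),
        ‖(n : ℂ)⁻¹ * ∑ k ∈ Finset.range n, Complex.exp (-((y : ℂ) * Complex.I) *
          (ψ (a + σ * k) - c * (a + σ * k : ℝ))) - G a‖ ≤ δ n) := by
    intro y
    by_cases hy : y ∈ Icc (0 : ℝ) 1
    · obtain ⟨G, δ, hδ, h⟩ := (hFS y hy).mean (y * c / (2 * Real.pi))
      refine ⟨G, δ, fun _ => ⟨hδ, fun σ hσ a n => ?_⟩⟩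
      refine le_of_eq_of_le ?_ (h σ hσ a n)
      congr 3
      refine Finset.sum_congr rfl (fun k _ => ?_)
      rw [e_eq_exp, ← Complex.exp_add]
      congr 1
      have hpi : (2 * Real.pi) ≠ 0 := by positivity
      have h1 : -(2 * Real.pi * -((a + σ * k) * (y * c / (2 * Real.pi)))) =
          (a + σ * k) * (y * c) := by
        field_simp
      rw [← Complex.ofReal_neg, h1]
      push_cast
      ring
    · exact ⟨fun _ => 0, fun _ => 0, fun h => absurd h hy⟩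
  choose G δ hG using hmean
  have hae : ∀ a : ℚ, ∀ᵐ y : ℝ, y ∈ Icc (0 : ℝ) 1 → G y a = 0 := by
    intro a
    refine ae_zero (z := fun k : ℕ => ψ (a + σ * k) - c * ((a : ℝ) + σ * k : ℝ)) hM0 ?_ ?_
      (G := fun y => G y a) ?_
    · intro k
      have h1 : (ψ (a + σ * k) - c * ((a : ℝ) + σ * k : ℝ)).im = (ψ (a + σ * k)).im := by
        rw [Complex.sub_im, ← Complex.ofReal_mul, Complex.ofReal_im, sub_zero]
      rw [h1]
      exact (le_abs_self _).trans (him _)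
    · refine tendsto_atTop_mono (fun k => ?_) (hσt a)
      have h1 : (ψ (a + σ * k) - c * ((a : ℝ) + σ * k : ℝ)).re =
          (ψ (a + σ * k)).re - c * (a + σ * k) := by
        rw [Complex.sub_re, ← Complex.ofReal_mul, Complex.ofReal_re]
      rw [← h1]
      exact (le_abs_self _).trans (Complex.abs_re_le_norm _)
    · intro y hy
      obtain ⟨hδ, h⟩ := hG y hy
      rw [tendsto_iff_norm_sub_tendsto_zero]
      refine squeeze_zero (fun _ => norm_nonneg _) (fun n => h σ hσ a n) hδ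
  rw [← ae_all_iff] at hae
  have hdense := Measure.dense_of_ae hae
  -- choose y
  have hB1 : 0 < 4 * (B + 1) := by linarith
  obtain ⟨y, hyo, hy⟩ := hdense.exists_mem_open isOpen_Ioo
    (nonempty_Ioo.2 (show (0 : ℝ) < 1 / (4 * (B + 1)) by positivity))
  have hy0 : 0 < y := hy.1
  have hyB : y * (B + 1) ≤ 1 / 4 := by
    have := hy.2.le
    rw [le_div_iff₀ hB1] at this
    linarith
  have hy1 : y ≤ 1 := by nlinarith
  have hymem : y ∈ Icc (0 : ℝ) 1 := ⟨hy0.le, hy1⟩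
  obtain ⟨hδ, hyG⟩ := hG y hymem
  obtain ⟨n, hn, hn0⟩ := ((hδ.eventually (gt_mem_nhds
    (show (0 : ℝ) < Real.exp (-M) / 2 by positivity))).and (eventually_gt_atTop 0)).exists
  have hn' : (0 : ℝ) < n := by exact_mod_cast hn0
  -- choose m
  have hev1 : ∀ᶠ j in atTop, ‖cm (φ j) - cs‖ * n ≤ 1 := by
    have h1 : Tendsto (fun j => ‖cm (φ j) - cs‖ * n) atTop (𝓝 0) := by
      have := (tendsto_iff_norm_sub_tendsto_zero.1 hφt).mul_const (n : ℝ)
      simpa [Function.comp_def] using this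
    exact (h1.eventually (gt_mem_nhds one_pos)).mono (fun _ h => h.le)
  obtain ⟨j, hj1, hj2⟩ := (hev1.and (eventually_ge_atTop n)).exists
  set m := φ j with hm
  have hmn : n ≤ m := hj2.trans (hφ.id_le j)
  have hw : ∀ k ∈ Finset.range n, ‖ψ (ξ0 m + k) - ψ (ξ0 m) - c * k‖ ≤ B + 1 := by
    intro k hk
    have hk' : k < n := Finset.mem_range.1 hk
    have h1 := hlin m k ⟨Nat.cast_nonneg k, by exact_mod_cast (hk'.le.trans hmn)⟩
    have h2 : ‖(cm m - cs) * k‖ ≤ 1 := by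
      rw [norm_mul, Complex.norm_natCast]
      refine le_trans ?_ hj1
      gcongr
    have h3 : ψ (ξ0 m + k) - ψ (ξ0 m) - c * k = (ψ (ξ0 m + k) - ψ (ξ0 m) - cm m * (k : ℝ)) +
        (cm m - cs) * k := by
      rw [hcs]; push_cast; ring
    rw [h3]
    exact (norm_add_le _ _).trans (add_le_add h1 h2)
  have hfin := hyG 1 (Or.inl rfl) (ξ0 m) n
  rw [hyo (ξ0 m) hymem, sub_zero] at hfin
  have hfac : (n : ℂ)⁻¹ * ∑ k ∈ Finset.range n, Complex.exp (-((y : ℂ) * Complex.I) *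
      (ψ (ξ0 m + 1 * k) - c * ((ξ0 m : ℝ) + 1 * k : ℝ))) =
      Complex.exp (-((y : ℂ) * Complex.I) * (ψ (ξ0 m) - c * (ξ0 m : ℝ))) *
      (1 + (n : ℂ)⁻¹ * ∑ k ∈ Finset.range n, (Complex.exp (-((y : ℂ) * Complex.I) *
        (ψ (ξ0 m + k) - ψ (ξ0 m) - c * k)) - 1)) := by
    have hnc : (n : ℂ) ≠ 0 := by exact_mod_cast hn0.ne'
    have h1 : (1 : ℂ) + (n : ℂ)⁻¹ * ∑ k ∈ Finset.range n, (Complex.exp (-((y : ℂ) * Complex.I) *
        (ψ (ξ0 m + k) - ψ (ξ0 m) - c * k)) - 1) = (n : ℂ)⁻¹ * ∑ k ∈ Finset.range n,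
        Complex.exp (-((y : ℂ) * Complex.I) * (ψ (ξ0 m + k) - ψ (ξ0 m) - c * k)) := by
      rw [Finset.sum_sub_distrib]
      simp only [Finset.sum_const, Finset.card_range, nsmul_eq_mul, mul_one]
      rw [mul_sub, inv_mul_cancel₀ hnc]
      ring
    rw [h1, mul_left_comm, Finset.mul_sum (Finset.range n) _
      (Complex.exp (-((y : ℂ) * Complex.I) * (ψ (ξ0 m) - c * (ξ0 m : ℝ))))]
    congr 1
    refine Finset.sum_congr rfl (fun k _ => ?_)
    rw [← Complex.exp_add]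
    congr 1
    push_cast
    rw [one_mul]
    ring
  rw [hfac, norm_mul, norm_exp_neg_I] at hfin
  have h1 : Real.exp (-M) ≤ Real.exp (y * (ψ (ξ0 m) - c * (ξ0 m : ℝ)).im) := by
    rw [Real.exp_le_exp]
    have h2 : (ψ (ξ0 m) - c * (ξ0 m : ℝ)).im = (ψ (ξ0 m)).im := by
      rw [Complex.sub_im, ← Complex.ofReal_mul, Complex.ofReal_im, sub_zero]
    rw [h2]
    have h3 := neg_le_of_abs_le (him (ξ0 m))
    nlinarith
  have h2 : 1 / 2 ≤ ‖1 + (n : ℂ)⁻¹ * ∑ k ∈ Finset.range n, (Complex.exp (-((y : ℂ) * Complex.I) *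
        (ψ (ξ0 m + k) - ψ (ξ0 m) - c * k)) - 1)‖ := by
    set S := (n : ℂ)⁻¹ * ∑ k ∈ Finset.range n, (Complex.exp (-((y : ℂ) * Complex.I) *
        (ψ (ξ0 m + k) - ψ (ξ0 m) - c * k)) - 1) with hS
    have h3 : ‖S‖ ≤ 1 / 2 := by
      rw [hS, norm_mul, norm_inv, Complex.norm_natCast, inv_mul_le_iff₀ hn']
      refine (norm_sum_le _ _).trans ?_
      calc ∑ k ∈ Finset.range n, ‖Complex.exp (-((y : ℂ) * Complex.I) *
            (ψ (ξ0 m + k) - ψ (ξ0 m) - c * k)) - 1‖ ≤ ∑ k ∈ Finset.range n, (1 / 2 : ℝ) := by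
            refine Finset.sum_le_sum (fun k hk => ?_)
            have h4 : ‖-((y : ℂ) * Complex.I) * (ψ (ξ0 m + k) - ψ (ξ0 m) - c * k)‖ ≤ 1 / 4 := by
              rw [norm_mul, norm_neg, norm_mul, Complex.norm_I, mul_one, Complex.norm_real,
                Real.norm_of_nonneg hy0.le]
              calc y * _ ≤ y * (B + 1) := by gcongr; exact hw k hk
                _ ≤ 1 / 4 := hyB
            have h5 := Complex.norm_exp_sub_one_le (x := -((y : ℂ) * Complex.I) *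
              (ψ (ξ0 m + k) - ψ (ξ0 m) - c * k)) (by linarith)
            linarith
        _ = n * (1 / 2) := by simp
    have h6 := norm_sub_norm_le (1 : ℂ) (-S)
    rw [norm_one, norm_neg, sub_neg_eq_add] at h6
    linarith
  have h3 : Real.exp (-M) * (1 / 2) ≤ δ y n := by
    refine le_trans ?_ hfin
    gcongr
  linarith

end Pool.Agent.P8H68.AS
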