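import Pool.Agent.P8H68.AS.Semi

/-!
# No analytic semigroup of `L¹(ℝ)` is bounded on a half-disc
-/

open MeasureTheory Filter Topology Set FourierTransform
open scoped BigOperators ENNReal NNReal BoundedContinuousFunction Convolution

namespace Pool.Agent.P8H68.AS

variable {a : ℂ → Lp ℂ 1 (volume : Measure ℝ)}

lemma tendsto_small (b : ℝ) : Tendsto (fun k : ℕ => b / ((k : ℝ) + 1)) atTop (𝓝 0) := by
  have := (tendsto_one_div_add_atTop_nhds_zero_nat (𝕜 := ℝ)).const_mul b
  simpa [div_eq_mul_inv] using this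

lemma mem_disc {b y : ℝ} (hb : 0 < b) (hy : |y| ≤ b) (k : ℕ) :
    0 < ((((b / ((k : ℝ) + 1) : ℝ) : ℂ) + y * Complex.I)).re ∧
      ‖((((b / ((k : ℝ) + 1) : ℝ) : ℂ) + y * Complex.I))‖ ≤ 2 * b := by
  have hk : (0 : ℝ) < (k : ℝ) + 1 := by positivity
  constructor
  · have : ((((b / ((k : ℝ) + 1) : ℝ) : ℂ) + y * Complex.I)).re = b / ((k : ℝ) + 1) := by
      rw [Complex.add_re, Complex.ofReal_re, Complex.re_ofReal_mul, Complex.I_re]
      ring
    rw [this]
    positivity
  · refine (norm_add_le _ _).trans ?_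
    rw [Complex.norm_real, norm_mul, Complex.norm_real, Complex.norm_I, mul_one,
      Real.norm_of_nonneg (by positivity), Real.norm_eq_abs]
    have : b / ((k : ℝ) + 1) ≤ b := by
      rw [div_le_iff₀ hk]
      nlinarith [Nat.cast_nonneg (α := ℝ) k]
    linarith

lemma exp_bound (ha : IsAnalyticSemigroup a) {b C : ℝ}
    (hC : ∀ t : ℂ, 0 < t.re → ‖t‖ ≤ 2 * b → ‖a t‖ ≤ C) {ξ : ℝ} (hξ : phi a ξ 1 ≠ 0) {t : ℂ}
    (ht : 0 < t.re) (ht2 : ‖t‖ ≤ 2 * b) : -(t * psi a ξ).re ≤ Real.log C := by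
  have h1 := (norm_phi_le ξ t).trans (hC t ht ht2)
  rw [phi_eq_exp ha hξ ht, Complex.norm_exp] at h1
  have h2 := Real.log_le_log (Real.exp_pos _) h1
  rw [Real.log_exp] at h2
  simpa using h2

lemma im_bound (ha : IsAnalyticSemigroup a) {b C : ℝ} (hb : 0 < b)
    (hC : ∀ t : ℂ, 0 < t.re → ‖t‖ ≤ 2 * b → ‖a t‖ ≤ C) {ξ : ℝ} (hξ : phi a ξ 1 ≠ 0) :
    |b * (psi a ξ).im| ≤ Real.log C := by
  have key : ∀ y : ℝ, |y| ≤ b → y * (psi a ξ).im ≤ Real.log C := by
    intro y hy
    have h1 : ∀ k : ℕ, -(b / ((k : ℝ) + 1)) * (psi a ξ).re + y * (psi a ξ).im ≤ Real.log C := by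
      intro k
      obtain ⟨h2, h3⟩ := mem_disc hb hy k
      have h4 := exp_bound ha hC hξ h2 h3
      refine le_trans (le_of_eq ?_) h4
      simp only [Complex.mul_re, Complex.add_re, Complex.ofReal_re,
        Complex.I_re, Complex.add_im, Complex.ofReal_im, Complex.im_ofReal_mul, Complex.I_im]
      ring
    have h5 : Tendsto (fun k : ℕ => -(b / ((k : ℝ) + 1)) * (psi a ξ).re + y * (psi a ξ).im)
        atTop (𝓝 (-0 * (psi a ξ).re + y * (psi a ξ).im)) :=
      ((tendsto_small b).neg.mul_const _).add_const _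
    have h6 := le_of_tendsto h5 (Eventually.of_forall h1)
    simpa using h6
  rw [abs_le]
  have h1 := key b (by rw [abs_of_pos hb])
  have h2 := key (-b) (by rw [abs_neg, abs_of_pos hb])
  constructor <;> linarith

lemma exists_FS (ha : IsAnalyticSemigroup a) {b C : ℝ} (hb : 0 < b)
    (hC : ∀ t : ℂ, 0 < t.re → ‖t‖ ≤ 2 * b → ‖a t‖ ≤ C) {y : ℝ} (hy : |y| ≤ b) :
    ∃ G : ℝ → ℂ, IsFS G ∧ ∀ ξ, phi a ξ 1 ≠ 0 → G ξ = Complex.exp (-((y : ℂ) * Complex.I) *
      psi a ξ) := by
  classical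
  let t : ℕ → ℂ := fun k => (((b / ((k : ℝ) + 1) : ℝ) : ℂ) + y * Complex.I)
  have ht : Tendsto t atTop (𝓝 ((0 : ℝ) + y * Complex.I)) :=
    ((Complex.continuous_ofReal.tendsto _).comp (tendsto_small b)).add_const _
  let F : ℝ → ℂ := fun ξ => if phi a ξ 1 ≠ 0 then
    Complex.exp (-((y : ℂ) * Complex.I) * psi a ξ) else 0
  obtain ⟨G, hG, hGF⟩ := weak_limit (fun k => (a (t k) : ℝ → ℂ))
    (fun k => L1.integrable_coeFn _) (C := C)
    (fun k => by
      rw [← L1.norm_eq_integral_norm]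
      exact hC _ (mem_disc hb hy k).1 (mem_disc hb hy k).2) (F := F) (by
    intro ξ
    by_cases hξ : phi a ξ 1 ≠ 0
    · simp only [F, if_pos hξ]
      have h1 : ∀ k, 𝓕 (a (t k) : ℝ → ℂ) ξ = Complex.exp (-(t k * psi a ξ)) :=
        fun k => phi_eq_exp ha hξ (mem_disc hb hy k).1
      simp_rw [h1]
      have h2 : Tendsto (fun k => Complex.exp (-(t k * psi a ξ))) atTop
          (𝓝 (Complex.exp (-((((0 : ℝ) : ℂ) + y * Complex.I) * psi a ξ)))) :=
        (Complex.continuous_exp.tendsto _).comp (ht.mul_const _).neg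
      convert h2 using 3
      simp
    · simp only [F, if_neg hξ]
      push Not at hξ
      have h1 : ∀ k, 𝓕 (a (t k) : ℝ → ℂ) ξ = 0 :=
        fun k => phi_eq_zero ha hξ (mem_disc hb hy k).1
      simp_rw [h1]
      exact tendsto_const_nhds)
  refine ⟨G, hG, ?_⟩
  have hU : IsOpen {ξ : ℝ | phi a ξ 1 ≠ 0} := isOpen_ne_fun (phi_continuous 1) continuous_const
  have hFc : ContinuousOn F {ξ : ℝ | phi a ξ 1 ≠ 0} := by
    have h1 : ContinuousOn (fun ξ => Complex.exp (-((y : ℂ) * Complex.I) * psi a ξ))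
        {ξ : ℝ | phi a ξ 1 ≠ 0} :=
      Complex.continuous_exp.comp_continuousOn (continuousOn_const.mul psi_continuousOn)
    refine h1.congr (fun ξ hξ => ?_)
    simp only [F]
    exact if_pos hξ
  have h1 := Measure.eqOn_open_of_ae_eq (ae_restrict_of_ae hGF) hU hG.continuous.continuousOn hFc
  intro ξ hξ
  rw [h1 hξ]
  simp only [F]
  exact if_pos hξ

/-- The set where the transform does not vanish is closed under short moves, along which the
exponent oscillates little. -/
lemma short_moves (ha : IsAnalyticSemigroup a) {b C : ℝ} (hb : 0 < b)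
    (hC : ∀ t : ℂ, 0 < t.re → ‖t‖ ≤ 2 * b → ‖a t‖ ≤ C) :
    ∃ r : ℝ, 0 < r ∧ ∀ ξ η : ℝ, phi a ξ 1 ≠ 0 → |ξ - η| ≤ r →
      phi a η 1 ≠ 0 ∧ ‖b * psi a ξ - b * psi a η‖ ≤ 1 := by
  obtain ⟨G, hG, hGe⟩ := exists_FS ha hb hC (y := b) (le_of_eq (abs_of_pos hb))
  set M := Real.log C with hM
  obtain ⟨r, hr, hGr⟩ := hG.uniform (ε := Real.exp (-M) / 9) (by positivity)
  refine ⟨r, hr, fun ξ η hξ hξη => ?_⟩
  let γ : ℝ → ℝ := fun s => ξ + s * (η - ξ)
  have hγ : Continuous γ := by fun_prop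
  have hp : Continuous (fun s => phi a (γ s) 1) := (phi_continuous 1).comp hγ
  have hd : Continuous (fun s => evF (γ s) (deriv a 1)) := (evF_continuous _).comp hγ
  let κ : ℝ := Real.exp (-(psi a ξ).re - 1 / (4 * b))
  have hκ : 0 < κ := Real.exp_pos _
  let Z : Set ℝ := {s | κ ≤ ‖phi a (γ s) 1‖ ∧
    b * ‖evF (γ s) (deriv a 1) + psi a ξ * phi a (γ s) 1‖ ≤ ‖phi a (γ s) 1‖ / 4}
  have hZc : IsClosed Z := by
    have c1 : Continuous (fun s => b * ‖evF (γ s) (deriv a 1) + psi a ξ * phi a (γ s) 1‖) :=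
      continuous_const.mul (hd.add (continuous_const.mul hp)).norm
    have c2 : Continuous (fun s => ‖phi a (γ s) 1‖ / 4) := hp.norm.div_const _
    exact (isClosed_le continuous_const hp.norm).inter (isClosed_le c1 c2)
  -- description of `Z`
  have hne_of : ∀ s ∈ Z, phi a (γ s) 1 ≠ 0 := by
    intro s hs h0
    have := hs.1
    rw [h0, norm_zero] at this
    linarith
  have hid : ∀ s, phi a (γ s) 1 ≠ 0 →
      b * ‖evF (γ s) (deriv a 1) + psi a ξ * phi a (γ s) 1‖ =
        ‖b * psi a ξ - b * psi a (γ s)‖ * ‖phi a (γ s) 1‖ := by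
    intro s hs
    have h1 : evF (γ s) (deriv a 1) = -(psi a (γ s)) * phi a (γ s) 1 := by
      unfold psi
      field_simp
    rw [h1, ← mul_sub, norm_mul (b : ℂ), Complex.norm_real, Real.norm_of_nonneg hb.le, mul_assoc,
      ← norm_mul]
    congr 2
    ring
  have hnormphi : ∀ s, phi a (γ s) 1 ≠ 0 → ‖phi a (γ s) 1‖ = Real.exp (-(psi a (γ s)).re) := by
    intro s hs
    have h1 := phi_eq_exp ha hs (t := 1) (by simp)
    rw [h1, Complex.norm_exp]
    simp
  have hiff : ∀ s, phi a (γ s) 1 ≠ 0 → ‖b * psi a ξ - b * psi a (γ s)‖ ≤ 1 / 4 → s ∈ Z := by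
    intro s hs h1
    refine ⟨?_, ?_⟩
    · rw [hnormphi s hs]
      simp only [κ]
      rw [Real.exp_le_exp]
      have h2 := (Complex.abs_re_le_norm (b * psi a ξ - b * psi a (γ s))).trans h1
      have h3 : (b * psi a ξ - b * psi a (γ s)).re = b * ((psi a ξ).re - (psi a (γ s)).re) := by
        simp [mul_sub]
      rw [h3] at h2
      have h4 := (abs_le.1 h2).1
      have h5 : 1 / (4 * b) * b = 1 / 4 := by field_simp
      have h6 : 0 ≤ b * ((-(psi a (γ s)).re) - (-(psi a ξ).re - 1 / (4 * b))) := by nlinarith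
      have h7 := nonneg_of_mul_nonneg_right h6 hb
      linarith
    · rw [hid s hs]
      have h2 : 0 ≤ ‖phi a (γ s) 1‖ := norm_nonneg _
      nlinarith
  have hbd_of : ∀ s ∈ Z, ‖b * psi a ξ - b * psi a (γ s)‖ ≤ 1 / 4 := by
    intro s hs
    have h1 := hne_of s hs
    have h2 := hs.2
    rw [hid s h1] at h2
    have h3 : 0 < ‖phi a (γ s) 1‖ := norm_pos_iff.2 h1
    have h4 : ‖b * psi a ξ - b * psi a (γ s)‖ * ‖phi a (γ s) 1‖ ≤ (1 / 4) * ‖phi a (γ s) 1‖ := by
      linarith
    exact le_of_mul_le_mul_right h4 h3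
  have h0 : (0 : ℝ) ∈ Z := by
    refine hiff 0 ?_ ?_
    · simpa [γ] using hξ
    · simp [γ]
  -- the exponential is close to one
  have hexp : ∀ s ∈ Icc (0 : ℝ) 1, phi a (γ s) 1 ≠ 0 →
      ‖Complex.exp (-Complex.I * (b * psi a (γ s) - b * psi a ξ)) - 1‖ < 1 / 8 := by
    intro s hs hs1
    have hdist : |γ s - ξ| ≤ r := by
      simp only [γ]
      rw [add_sub_cancel_left, abs_mul, abs_of_nonneg hs.1, abs_sub_comm]
      calc s * |ξ - η| ≤ 1 * |ξ - η| := by gcongr; exact hs.2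
        _ ≤ r := by rw [one_mul]; exact hξη
    have h1 := hGr _ _ hdist
    rw [hGe _ hs1, hGe _ hξ] at h1
    have h2 : Complex.exp (-Complex.I * (b * psi a (γ s) - b * psi a ξ)) - 1 =
        (Complex.exp (-((b : ℂ) * Complex.I) * psi a (γ s)) -
          Complex.exp (-((b : ℂ) * Complex.I) * psi a ξ)) *
        Complex.exp (((b : ℂ) * Complex.I) * psi a ξ) := by
      rw [sub_mul, ← Complex.exp_add, ← Complex.exp_add]
      congr 1
      · congr 1; ring
      · rw [show -((b : ℂ) * Complex.I) * psi a ξ + (b : ℂ) * Complex.I * psi a ξ = 0 by ring,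
          Complex.exp_zero]
    rw [h2, norm_mul]
    have h3 : ‖Complex.exp (((b : ℂ) * Complex.I) * psi a ξ)‖ ≤ Real.exp M := by
      rw [Complex.norm_exp, Real.exp_le_exp]
      have : (((b : ℂ) * Complex.I) * psi a ξ).re = -(b * (psi a ξ).im) := by
        simp
      rw [this]
      exact (neg_le_abs _).trans (im_bound ha hb hC hξ)
    calc _ ≤ Real.exp (-M) / 9 * Real.exp M := by gcongr
      _ = 1 / 9 := by rw [div_mul_eq_mul_div, ← Real.exp_add]; simp
      _ < 1 / 8 := by norm_num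
  have hZ : Icc (0 : ℝ) 1 ⊆ Z := by
    refine IsClosed.Icc_subset_of_forall_mem_nhdsWithin (hZc.inter isClosed_Icc) h0 ?_
    rintro s ⟨hsZ, hs⟩
    have hs1 := hne_of s hsZ
    have hopen : ∀ᶠ s' in 𝓝 s, phi a (γ s') 1 ≠ 0 := hp.continuousAt.eventually_ne hs1
    have hcont : ContinuousAt (fun s' => ‖b * psi a ξ - b * psi a (γ s')‖) s := by
      have h1 : ContinuousAt (psi a) (γ s) := psi_continuousOn.continuousAt
        ((isOpen_ne_fun (phi_continuous 1) continuous_const).mem_nhds hs1)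
      have h2 : ContinuousAt (fun s' => psi a (γ s')) s :=
        ContinuousAt.comp (f := γ) h1 hγ.continuousAt
      exact (continuousAt_const.sub (continuousAt_const.mul h2)).norm
    have hsmall : ∀ᶠ s' in 𝓝 s, ‖b * psi a ξ - b * psi a (γ s')‖ < 1 / 2 :=
      hcont.eventually (gt_mem_nhds (lt_of_le_of_lt (hbd_of s hsZ) (by norm_num)))
    have hright : ∀ᶠ s' in 𝓝[>] s, s' ∈ Icc (0 : ℝ) 1 := by
      filter_upwards [Ioo_mem_nhdsGT hs.2] with s' hs'
      exact ⟨hs.1.trans hs'.1.le, hs'.2.le⟩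
    filter_upwards [hopen.filter_mono nhdsWithin_le_nhds,
      hsmall.filter_mono nhdsWithin_le_nhds, hright] with s' h1 h2 h3
    refine hiff s' h1 ?_
    have h4 := hexp s' h3 h1
    have h5 : ‖-Complex.I * (b * psi a (γ s') - b * psi a ξ)‖ =
        ‖b * psi a ξ - b * psi a (γ s')‖ := by
      rw [norm_mul, norm_neg, Complex.norm_I, one_mul, norm_sub_rev]
    have h6 := small_of_exp (w := -Complex.I * (b * psi a (γ s') - b * psi a ξ))
      (by rw [h5]; exact h2.le) h4
    rw [h5] at h6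
    exact h6.le
  have h1Z := hZ ⟨zero_le_one, le_rfl⟩
  have hγ1 : γ 1 = η := by simp [γ]
  refine ⟨?_, ?_⟩
  · have := hne_of 1 h1Z
    rwa [hγ1] at this
  · have := hbd_of 1 h1Z
    rw [hγ1] at this
    linarith

/-- **Main theorem**, in the form with radius `2 b`. -/
theorem unbounded (ha : IsAnalyticSemigroup a) {b C : ℝ} (hb : 0 < b)
    (hC : ∀ t : ℂ, 0 < t.re → ‖t‖ ≤ 2 * b → ‖a t‖ ≤ C) : False := by
  obtain ⟨r, hr, hmove⟩ := short_moves ha hb hC
  obtain ⟨ξ0, hξ0⟩ := exists_phi_ne ha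
  -- all points
  have hall : ∀ η, phi a η 1 ≠ 0 := by
    have h1 : ∀ n : ℕ, ∀ η, |ξ0 - η| ≤ n * r → phi a η 1 ≠ 0 := by
      intro n
      induction n with
      | zero =>
        intro η h
        have : ξ0 = η := by
          have h0 : |ξ0 - η| ≤ 0 := by simpa using h
          have := abs_nonpos_iff.1 h0
          linarith
        rwa [← this]
      | succ n ih =>
        intro η h
        push_cast at h
        by_cases hc : |ξ0 - η| ≤ n * r
        · exact ih η hc
        · push Not at hc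
          rcases le_total ξ0 η with hle | hle
          · rw [abs_sub_comm, abs_of_nonneg (by linarith)] at h hc
            have e1 := ih (ξ0 + n * r) (by
              rw [abs_sub_comm, abs_of_nonneg (by simp; positivity)]; linarith)
            exact (hmove (ξ0 + n * r) η e1 (by
              rw [abs_sub_comm, abs_of_nonneg (by linarith)]; linarith)).1
          · rw [abs_of_nonneg (by linarith)] at h hc
            have e1 := ih (ξ0 - n * r) (by
              rw [abs_of_nonneg (by simp; positivity)]; linarith)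
            exact (hmove (ξ0 - n * r) η e1 (by
              rw [abs_of_nonneg (by linarith)]; linarith)).1
    intro η
    refine h1 ⌈|ξ0 - η| / r⌉₊ η ?_
    have := Nat.le_ceil (|ξ0 - η| / r)
    rwa [div_le_iff₀ hr] at this
  have hψc : Continuous (psi a) := by
    rw [← continuousOn_univ]
    exact psi_continuousOn.mono (fun η _ => hall η)
  refine core (ψ := fun ξ => b * psi a ξ) (M := Real.log C) (continuous_const.mul hψc) ?_ ?_ hr ?_
    ?_
  · intro ξ
    have := im_bound ha hb hC (hall ξ)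
    simpa using this
  · have h1 : Tendsto (fun ξ => ‖phi a ξ 1‖) (cocompact ℝ) (𝓝 0) := by
      have := (Real.zero_at_infty_fourier (a 1 : ℝ → ℂ)).norm
      simpa [phi] using this
    have h2 : ∀ ξ, ‖phi a ξ 1‖ = Real.exp (-(psi a ξ).re) := by
      intro ξ
      rw [phi_eq_exp ha (hall ξ) (t := 1) (by simp), Complex.norm_exp]
      simp
    simp_rw [h2] at h1
    rw [Real.tendsto_exp_comp_nhds_zero] at h1
    have h3 : Tendsto (fun ξ => (psi a ξ).re) (cocompact ℝ) atTop := by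
      have := tendsto_neg_atBot_atTop.comp h1
      simpa [Function.comp_def] using this
    have h4 := h3.const_mul_atTop hb
    refine h4.congr (fun ξ => ?_)
    simp
  · intro ξ η h
    exact (hmove ξ η (hall ξ) h).2
  · intro y hy
    obtain ⟨G, hG, hGe⟩ := exists_FS ha hb hC (y := y * b) (by
      rw [abs_mul, abs_of_nonneg hy.1, abs_of_pos hb]
      nlinarith [hy.2])
    have : (fun ξ => Complex.exp (-((y : ℂ) * Complex.I) * (b * psi a ξ))) = G := by
      ext ξ
      rw [hGe ξ (hall ξ)]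
      congr 1
      push_cast
      ring
    rw [this]
    exact hG

end Pool.Agent.P8H68.AS
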