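import Pool.Agent.P8H68.AS.Basic

/-!
# Uniform twisted means of Fourier-Stieltjes transforms
-/

open MeasureTheory Filter Topology Set
open scoped BigOperators ENNReal

namespace Pool.Agent.P8H68.AS

/-- `F` is a combination of Fourier-Stieltjes transforms of four finite positive measures. -/
def IsFS (F : ℝ → ℂ) : Prop :=
  ∃ ρ : Fin 4 → Measure ℝ, (∀ j, IsFiniteMeasure (ρ j)) ∧
    ∀ ξ, F ξ = ∑ j : Fin 4, Complex.I ^ (j : ℕ) * ft (ρ j) ξ

/-- The mean at frequency `θ` (on the coset of `A`). -/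
noncomputable def gmean (ρ : Measure ℝ) (θ A : ℝ) : ℂ :=
  ∫ x, e (A * (x - θ)) * ({x : ℝ | e (x - θ) = 1}.indicator (fun _ => (1 : ℂ)) x) ∂ρ

/-- The error of the mean. -/
noncomputable def dmean (ρ : Measure ℝ) (θ σ : ℝ) (n : ℕ) : ℝ :=
  ∫ x, ‖(n : ℂ)⁻¹ * ∑ k ∈ Finset.range n, e (σ * k * (x - θ)) -
    ({x : ℝ | e (x - θ) = 1}.indicator (fun _ => (1 : ℂ)) x)‖ ∂ρ

lemma measurableSet_coset (θ : ℝ) : MeasurableSet {x : ℝ | e (x - θ) = 1} := by
  have hc : Continuous (fun x : ℝ => e (x - θ)) := continuous_e.comp (by fun_prop)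
  have : {x : ℝ | e (x - θ) = 1} = (fun x : ℝ => e (x - θ)) ⁻¹' {1} := by
    ext z; simp
  rw [this]
  exact (isClosed_singleton.preimage hc).measurableSet

lemma measurable_ind (θ : ℝ) :
    Measurable (fun x => {x : ℝ | e (x - θ) = 1}.indicator (fun _ => (1 : ℂ)) x) :=
  measurable_const.indicator (measurableSet_coset θ)

lemma norm_ind_le (θ x : ℝ) :
    ‖{x : ℝ | e (x - θ) = 1}.indicator (fun _ => (1 : ℂ)) x‖ ≤ 1 := by
  by_cases h : x ∈ {x : ℝ | e (x - θ) = 1}
  · rw [indicator_of_mem h]; simp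
  · rw [indicator_of_notMem h]; simp

lemma meas_diff (θ σ : ℝ) (n : ℕ) : Measurable (fun x : ℝ =>
    (n : ℂ)⁻¹ * ∑ k ∈ Finset.range n, e (σ * k * (x - θ)) -
    ({x : ℝ | e (x - θ) = 1}.indicator (fun _ => (1 : ℂ)) x)) := by
  refine Measurable.sub ?_ (measurable_ind θ)
  apply Continuous.measurable
  refine continuous_const.mul (continuous_finsetSum _ (fun k _ => ?_))
  exact continuous_e.comp (by fun_prop)

lemma norm_diff_le (θ σ : ℝ) (n : ℕ) (x : ℝ) :
    ‖(n : ℂ)⁻¹ * ∑ k ∈ Finset.range n, e (σ * k * (x - θ)) -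
    ({x : ℝ | e (x - θ) = 1}.indicator (fun _ => (1 : ℂ)) x)‖ ≤ 2 := by
  calc _ ≤ ‖(n : ℂ)⁻¹ * ∑ k ∈ Finset.range n, e (σ * k * (x - θ))‖ +
        ‖({x : ℝ | e (x - θ) = 1}.indicator (fun _ => (1 : ℂ)) x)‖ := norm_sub_le _ _
    _ ≤ 1 + 1 := add_le_add (norm_cesaro_le (fun k => by simp) n) (norm_ind_le θ x)
    _ = 2 := by norm_num

lemma tendsto_dmean (ρ : Measure ℝ) [IsFiniteMeasure ρ] (θ : ℝ) {σ : ℝ} (hσ : σ = 1 ∨ σ = -1) :
    Tendsto (dmean ρ θ σ) atTop (𝓝 0) := by
  have h0 : (0 : ℝ) = ∫ x : ℝ, (0 : ℝ) ∂ρ := by simp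
  rw [h0]
  unfold dmean
  refine tendsto_integral_of_dominated_convergence (fun _ => (2 : ℝ)) ?_ (integrable_const _)
    ?_ ?_
  · intro n
    exact (meas_diff θ σ n).norm.aestronglyMeasurable
  · intro n
    refine Eventually.of_forall (fun x => ?_)
    rw [norm_norm]
    exact norm_diff_le θ σ n x
  · refine Eventually.of_forall (fun x => ?_)
    have hpow : ∀ k : ℕ, e (σ * k * (x - θ)) = e (σ * (x - θ)) ^ k := by
      intro k
      rw [← e_nat_mul]
      congr 1
      ring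
    by_cases h : x ∈ {x : ℝ | e (x - θ) = 1}
    · have h1 : e (x - θ) = 1 := h
      have h2 : e (σ * (x - θ)) = 1 := by
        rcases hσ with rfl | rfl
        · simpa using h1
        · rw [show (-1 : ℝ) * (x - θ) = -(x - θ) by ring, e_neg, h1]; simp
      refine tendsto_const_nhds.congr' ?_
      filter_upwards [eventually_gt_atTop 0] with n hn
      rw [indicator_of_mem h]
      simp_rw [hpow, h2]
      have hn' : (n : ℂ) ≠ 0 := by exact_mod_cast hn.ne'
      simp [hn']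
    · have h1 : e (σ * (x - θ)) ≠ 1 := by
        intro h2
        apply h
        change e (x - θ) = 1
        rcases hσ with rfl | rfl
        · simpa using h2
        · rw [show (-1 : ℝ) * (x - θ) = -(x - θ) by ring, e_neg] at h2
          have := congrArg (starRingEnd ℂ) h2
          simpa using this
      rw [indicator_of_notMem h]
      simp_rw [hpow, sub_zero]
      have := (cesaro_pow (norm_e (σ * (x - θ))) h1).norm
      simpa using this

lemma mean_le (ρ : Measure ℝ) [IsFiniteMeasure ρ] (θ σ A : ℝ) (n : ℕ) :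
    ‖(n : ℂ)⁻¹ * ∑ k ∈ Finset.range n, ft ρ (A + σ * k) * e (-((A + σ * k) * θ)) - gmean ρ θ A‖
      ≤ dmean ρ θ σ n := by
  have h1 : (n : ℂ)⁻¹ * ∑ k ∈ Finset.range n, ft ρ (A + σ * k) * e (-((A + σ * k) * θ)) -
      gmean ρ θ A = ∫ x, e (A * (x - θ)) * ((n : ℂ)⁻¹ * ∑ k ∈ Finset.range n,
        e (σ * k * (x - θ)) - ({x : ℝ | e (x - θ) = 1}.indicator (fun _ => (1 : ℂ)) x)) ∂ρ := by
    have h2 : (fun x : ℝ => e (A * (x - θ)) * ((n : ℂ)⁻¹ * ∑ k ∈ Finset.range n,
        e (σ * k * (x - θ)) - ({x : ℝ | e (x - θ) = 1}.indicator (fun _ => (1 : ℂ)) x))) =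
        fun x : ℝ => ((n : ℂ)⁻¹ * ∑ k ∈ Finset.range n,
          e ((A + σ * k) * x) * e (-((A + σ * k) * θ))) -
        e (A * (x - θ)) * ({x : ℝ | e (x - θ) = 1}.indicator (fun _ => (1 : ℂ)) x) := by
      ext x
      rw [mul_sub, mul_left_comm, Finset.mul_sum (Finset.range n) _ (e (A * (x - θ)))]
      congr 2
      refine Finset.sum_congr rfl (fun k _ => ?_)
      rw [← e_add, ← e_add]
      congr 1
      ring
    rw [h2, integral_sub]
    · congr 1
      rw [integral_const_mul, integral_finsetSum]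
      · congr 1
        refine Finset.sum_congr rfl (fun k _ => ?_)
        rw [integral_mul_const]
        rfl
      · intro k _
        exact (integrable_e ρ _).mul_const _
    · refine Integrable.const_mul ?_ _
      refine integrable_finsetSum _ (fun k _ => ?_)
      exact (integrable_e ρ _).mul_const _
    · refine (integrable_const (1 : ℝ)).mono' ?_ ?_
      · refine AEStronglyMeasurable.mul ?_ ?_
        · exact (continuous_e.comp (by fun_prop)).aestronglyMeasurable
        · exact (measurable_ind θ).aestronglyMeasurable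
      · refine Eventually.of_forall (fun x => ?_)
        rw [norm_mul, norm_e, one_mul]
        exact norm_ind_le θ x
  rw [h1]
  refine (norm_integral_le_integral_norm _).trans ?_
  simp only [norm_mul, norm_e, one_mul]
  exact le_of_eq rfl

/-- Twisted discrete means of a function of class `IsFS` converge, uniformly in the base point,
and the limits in both directions agree. -/
lemma IsFS.mean {F : ℝ → ℂ} (hF : IsFS F) (θ : ℝ) :
    ∃ (G : ℝ → ℂ) (δ : ℕ → ℝ), Tendsto δ atTop (𝓝 0) ∧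
      ∀ (σ : ℝ), (σ = 1 ∨ σ = -1) → ∀ (A : ℝ) (n : ℕ),
        ‖(n : ℂ)⁻¹ * ∑ k ∈ Finset.range n, F (A + σ * k) * e (-((A + σ * k) * θ)) - G A‖ ≤ δ n := by
  obtain ⟨ρ, hρ, hF⟩ := hF
  refine ⟨fun A => ∑ j : Fin 4, Complex.I ^ (j : ℕ) * gmean (ρ j) θ A,
    fun n => ∑ j : Fin 4, (dmean (ρ j) θ 1 n + dmean (ρ j) θ (-1) n), ?_, ?_⟩
  · have : Tendsto (fun n => ∑ j : Fin 4, (dmean (ρ j) θ 1 n + dmean (ρ j) θ (-1) n)) atTop
        (𝓝 (∑ j : Fin 4, ((0 : ℝ) + 0))) := by
      refine tendsto_finsetSum _ (fun j _ => ?_)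
      have := hρ j
      exact (tendsto_dmean (ρ j) θ (Or.inl rfl)).add (tendsto_dmean (ρ j) θ (Or.inr rfl))
    simpa using this
  · intro σ hσ A n
    have h1 : (n : ℂ)⁻¹ * ∑ k ∈ Finset.range n, F (A + σ * k) * e (-((A + σ * k) * θ)) -
        ∑ j : Fin 4, Complex.I ^ (j : ℕ) * gmean (ρ j) θ A =
        ∑ j : Fin 4, Complex.I ^ (j : ℕ) * ((n : ℂ)⁻¹ * ∑ k ∈ Finset.range n,
          ft (ρ j) (A + σ * k) * e (-((A + σ * k) * θ)) - gmean (ρ j) θ A) := by
      simp_rw [mul_sub, Finset.sum_sub_distrib]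
      congr 1
      simp_rw [hF, Finset.sum_mul, Finset.mul_sum]
      rw [Finset.sum_comm]
      refine Finset.sum_congr rfl (fun j _ => Finset.sum_congr rfl (fun k _ => ?_))
      ring
    rw [h1]
    refine (norm_sum_le _ _).trans (Finset.sum_le_sum (fun j _ => ?_))
    have := hρ j
    rw [norm_mul, norm_pow, Complex.norm_I, one_pow, one_mul]
    refine (mean_le (ρ j) θ σ A n).trans ?_
    have hnn : ∀ s, 0 ≤ dmean (ρ j) θ s n := fun s => integral_nonneg (fun x => norm_nonneg _)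
    rcases hσ with rfl | rfl
    · linarith [hnn (-1)]
    · linarith [hnn 1]

end Pool.Agent.P8H68.AS
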