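import Pool.Agent.P8H68.AS.Weak
import Pool.Agent.P8H68.AS.Core2

/-!
# Analytic semigroups in `L¹(ℝ)`
-/

open MeasureTheory Filter Topology Set FourierTransform
open scoped BigOperators ENNReal NNReal BoundedContinuousFunction Convolution ContDiff SchwartzMap

namespace Pool.Agent.P8H68.AS

/-- An integrable function whose Fourier transform vanishes is zero almost everywhere. -/
lemma fourier_inj {f : ℝ → ℂ} (hf : Integrable f) (h : ∀ ξ, 𝓕 f ξ = 0) : ∀ᵐ x, f x = 0 := by
  refine ae_eq_zero_of_integral_contDiff_smul_eq_zero hf.locallyIntegrable ?_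
  intro g hg hgc
  have hg₁ : HasCompactSupport (Complex.ofRealCLM ∘ g) := hgc.comp_left rfl
  have hg₂ : ContDiff ℝ ∞ (Complex.ofRealCLM ∘ g) := by fun_prop
  let G : 𝓢(ℝ, ℂ) := hg₁.toSchwartzMap hg₂
  have hG : ∀ x, G x = (g x : ℂ) := fun x => by simp [G]
  have h1 : G = 𝓕 (𝓕⁻ G) := (FourierTransform.fourier_fourierInv_eq G).symm
  have h2 : ∫ x, g x • f x = ∫ x, f x * (𝓕 ((𝓕⁻ G : 𝓢(ℝ, ℂ)) : ℝ → ℂ)) x := by
    refine integral_congr_ae (Eventually.of_forall (fun x => ?_))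
    have : (𝓕 ((𝓕⁻ G : 𝓢(ℝ, ℂ)) : ℝ → ℂ)) x = (g x : ℂ) := by
      rw [← hG x]
      conv_rhs => rw [h1]
      rw [SchwartzMap.fourier_coe]
    simp only [this, Complex.real_smul, mul_comm]
  rw [h2]
  simp_rw [fourier_eq_e]
  have hint : Integrable ((𝓕⁻ G : 𝓢(ℝ, ℂ)) : ℝ → ℂ) := (𝓕⁻ G : 𝓢(ℝ, ℂ)).integrable
  have h3 : ∫ x, f x * ∫ y, e (x * y) * (𝓕⁻ G : 𝓢(ℝ, ℂ)) y =
      ∫ y, (𝓕 f y) * (𝓕⁻ G : 𝓢(ℝ, ℂ)) y := by
    simp_rw [fourier_eq_e, ← integral_const_mul]
    rw [integral_integral_swap]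
    · refine integral_congr_ae (Eventually.of_forall (fun y => ?_))
      beta_reduce
      rw [← integral_mul_const]
      refine integral_congr_ae (Eventually.of_forall (fun x => ?_))
      beta_reduce
      rw [mul_comm y x]
      ring
    · have h4 : Integrable (fun z : ℝ × ℝ => f z.1 * (𝓕⁻ G : 𝓢(ℝ, ℂ)) z.2) :=
        hf.mul_prod hint
      refine h4.mono ?_ (Eventually.of_forall (fun z => ?_))
      · have h5 : (Function.uncurry fun x y => f x * (e (x * y) * (𝓕⁻ G : 𝓢(ℝ, ℂ)) y)) =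
            fun z : ℝ × ℝ => e (z.1 * z.2) * (f z.1 * (𝓕⁻ G : 𝓢(ℝ, ℂ)) z.2) := by
          ext z
          simp only [Function.uncurry]
          ring
        rw [h5]
        exact ((continuous_e.comp (by fun_prop)).aestronglyMeasurable).mul
          h4.aestronglyMeasurable
      · obtain ⟨x, y⟩ := z
        change ‖f x * (e (x * y) * (𝓕⁻ G : 𝓢(ℝ, ℂ)) y)‖ ≤ ‖f x * (𝓕⁻ G : 𝓢(ℝ, ℂ)) y‖
        rw [norm_mul, norm_mul, norm_e, one_mul, norm_mul]
  rw [h3]
  simp [h]

/-- `a` is an analytic semigroup in the convolution algebra `L¹(ℝ)`, over the open right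
half-plane. -/
structure IsAnalyticSemigroup (a : ℂ → Lp ℂ 1 (volume : Measure ℝ)) : Prop where
  /-- The map is holomorphic on the open right half-plane. -/
  differentiableOn : DifferentiableOn ℂ a {t | 0 < t.re}
  /-- The semigroup law for the convolution product. -/
  mul : ∀ s t : ℂ, 0 < s.re → 0 < t.re →
    ((a (s + t) : ℝ → ℂ) =ᵐ[volume]
      (a s : ℝ → ℂ) ⋆[ContinuousLinearMap.mul ℂ ℂ, volume] (a t : ℝ → ℂ))
  /-- The map is not identically zero. -/
  ne_zero : ∃ t : ℂ, 0 < t.re ∧ a t ≠ 0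

variable {a : ℂ → Lp ℂ 1 (volume : Measure ℝ)}

/-- The Fourier transform of the semigroup. -/
noncomputable def phi (a : ℂ → Lp ℂ 1 (volume : Measure ℝ)) (ξ : ℝ) (t : ℂ) : ℂ :=
  𝓕 (a t : ℝ → ℂ) ξ

lemma phi_mul (ha : IsAnalyticSemigroup a) (ξ : ℝ) {s t : ℂ} (hs : 0 < s.re) (ht : 0 < t.re) :
    phi a ξ (s + t) = phi a ξ s * phi a ξ t := by
  unfold phi
  rw [Real.fourier_congr_ae (ha.mul s t hs ht) ξ]
  exact Real.fourier_mul_convolution_eq (L1.integrable_coeFn (a s)) (L1.integrable_coeFn (a t)) ξ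

lemma norm_phi_le (ξ : ℝ) (t : ℂ) : ‖phi a ξ t‖ ≤ ‖a t‖ := by
  unfold phi
  rw [fourier_eq_e, L1.norm_eq_integral_norm]
  refine (norm_integral_le_integral_norm _).trans ?_
  simp only [norm_mul, norm_e, one_mul]
  exact le_rfl

/-- Evaluation of the Fourier transform as a continuous linear functional. -/
noncomputable def evF (ξ : ℝ) : Lp ℂ 1 (volume : Measure ℝ) →L[ℂ] ℂ :=
  (BoundedContinuousFunction.evalCLM ℂ ξ).comp (Real.Lp.fourierTransformCLM ℝ ℂ)

lemma evF_apply (ξ : ℝ) (f : Lp ℂ 1 (volume : Measure ℝ)) : evF ξ f = 𝓕 (f : ℝ → ℂ) ξ := rfl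

lemma isOpen_H : IsOpen {t : ℂ | 0 < t.re} := isOpen_lt continuous_const Complex.continuous_re

lemma phi_hasDerivAt (ha : IsAnalyticSemigroup a) (ξ : ℝ) {t : ℂ} (ht : 0 < t.re) :
    HasDerivAt (phi a ξ) (evF ξ (deriv a t)) t := by
  have h1 : HasDerivAt a (deriv a t) t :=
    ((ha.differentiableOn t ht).differentiableAt (isOpen_H.mem_nhds ht)).hasDerivAt
  exact (evF ξ).hasFDerivAt.comp_hasDerivAt t h1


lemma phi_continuous (t : ℂ) : Continuous (fun ξ => phi a ξ t) :=
  VectorFourier.fourierIntegral_continuous Real.continuous_fourierChar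
    (innerSL ℝ).continuous₂ (L1.integrable_coeFn (a t))

lemma evF_continuous (f : Lp ℂ 1 (volume : Measure ℝ)) : Continuous (fun ξ => evF ξ f) :=
  VectorFourier.fourierIntegral_continuous Real.continuous_fourierChar
    (innerSL ℝ).continuous₂ (L1.integrable_coeFn f)

/-- The exponent. -/
noncomputable def psi (a : ℂ → Lp ℂ 1 (volume : Measure ℝ)) (ξ : ℝ) : ℂ :=
  -(evF ξ (deriv a 1)) / phi a ξ 1

lemma phi_eq_exp (ha : IsAnalyticSemigroup a) {ξ : ℝ} (hξ : phi a ξ 1 ≠ 0) {t : ℂ}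
    (ht : 0 < t.re) : phi a ξ t = Complex.exp (-(t * psi a ξ)) := by
  have h1re : (0 : ℝ) < (1 : ℂ).re := by simp
  -- the differential equation
  have hode : ∀ z : ℂ, 0 < z.re → evF ξ (deriv a z) = -(psi a ξ) * phi a ξ z := by
    intro z hz
    have hz1 : 0 < (1 + z).re := by simp; linarith
    have hd := phi_hasDerivAt ha ξ hz1
    -- first: derivative in `z`
    have e1 : HasDerivAt (fun w => phi a ξ (1 + w)) (evF ξ (deriv a (1 + z))) z := by
      have := HasDerivAt.comp_const_add (1 : ℂ) z hd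
      exact this
    have e2 : HasDerivAt (fun w => phi a ξ 1 * phi a ξ w) (phi a ξ 1 * evF ξ (deriv a z)) z :=
      (phi_hasDerivAt ha ξ hz).const_mul _
    have e3 : (fun w => phi a ξ (1 + w)) =ᶠ[𝓝 z] (fun w => phi a ξ 1 * phi a ξ w) := by
      filter_upwards [isOpen_H.mem_nhds hz] with w hw
      exact phi_mul ha ξ h1re hw
    have e4 := (e1.congr_of_eventuallyEq e3.symm).unique e2
    -- second: derivative at `1`
    have e5 : HasDerivAt (fun w => phi a ξ (w + z)) (evF ξ (deriv a (1 + z))) 1 :=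
      HasDerivAt.comp_add_const (1 : ℂ) z hd
    have e6 : HasDerivAt (fun w => phi a ξ w * phi a ξ z) (evF ξ (deriv a 1) * phi a ξ z) 1 :=
      (phi_hasDerivAt ha ξ h1re).mul_const _
    have e7 : (fun w => phi a ξ (w + z)) =ᶠ[𝓝 1] (fun w => phi a ξ w * phi a ξ z) := by
      filter_upwards [isOpen_H.mem_nhds h1re] with w hw
      exact phi_mul ha ξ hw hz
    have e8 := (e5.congr_of_eventuallyEq e7.symm).unique e6
    have e9 : phi a ξ 1 * evF ξ (deriv a z) = evF ξ (deriv a 1) * phi a ξ z := by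
      rw [← e4, e8]
    unfold psi
    field_simp
    rw [mul_comm (evF ξ (deriv a z))]
    simpa using e9
  let f : ℂ → ℂ := fun z => phi a ξ z * Complex.exp (z * psi a ξ)
  have hf : ∀ z ∈ {t : ℂ | 0 < t.re}, HasDerivAt f 0 z := by
    intro z hz
    have h1 := phi_hasDerivAt ha ξ hz
    rw [hode z hz] at h1
    have h2 : HasDerivAt (fun z : ℂ => Complex.exp (z * psi a ξ))
        (Complex.exp (z * psi a ξ) * psi a ξ) z := by
      have := ((hasDerivAt_id z).mul_const (psi a ξ)).cexp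
      simpa using this
    have h3 := h1.mul h2
    have h4 : -(psi a ξ) * phi a ξ z * Complex.exp (z * psi a ξ) +
        phi a ξ z * (Complex.exp (z * psi a ξ) * psi a ξ) = 0 := by ring
    rw [h4] at h3
    exact h3
  have hconv : Convex ℝ {t : ℂ | 0 < t.re} := convex_halfSpace_re_gt 0
  have hconst : ∀ z : ℂ, 0 < z.re → f z = f 1 := by
    intro z hz
    refine isOpen_H.is_const_of_deriv_eq_zero hconv.isPreconnected ?_ ?_ hz h1re
    · exact fun w hw => (hf w hw).differentiableAt.differentiableWithinAt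
    · exact fun w hw => (hf w hw).deriv
  have hval : ∀ z : ℂ, 0 < z.re → phi a ξ z = f 1 * Complex.exp (-(z * psi a ξ)) := by
    intro z hz
    rw [← hconst z hz]
    simp only [f]
    rw [mul_assoc, ← Complex.exp_add]
    simp
  have hne : f 1 ≠ 0 := mul_ne_zero hξ (Complex.exp_ne_zero _)
  have h2 : f 1 = 1 := by
    have h3 := phi_mul ha ξ h1re h1re
    rw [hval (1 + 1) (by simp), hval 1 h1re] at h3
    have h4 : Complex.exp (-((1 + 1) * psi a ξ)) =
        Complex.exp (-(1 * psi a ξ)) * Complex.exp (-(1 * psi a ξ)) := by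
      rw [← Complex.exp_add]; congr 1; ring
    rw [h4] at h3
    have h5 : Complex.exp (-(1 * psi a ξ)) ≠ 0 := Complex.exp_ne_zero _
    have h6 : f 1 * (Complex.exp (-(1 * psi a ξ)) * Complex.exp (-(1 * psi a ξ))) * (f 1 - 1) =
        0 := by
      linear_combination -h3
    rcases mul_eq_zero.1 h6 with h | h
    · rcases mul_eq_zero.1 h with h | h
      · exact absurd h hne
      · exact absurd h (mul_ne_zero h5 h5)
    · exact sub_eq_zero.1 h
  rw [hval t ht, h2, one_mul]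

lemma phi_eq_zero (ha : IsAnalyticSemigroup a) {ξ : ℝ} (hξ : phi a ξ 1 = 0) {t : ℂ}
    (ht : 0 < t.re) : phi a ξ t = 0 := by
  have hpow : ∀ n : ℕ, 1 ≤ n → phi a ξ (n * t) = phi a ξ t ^ n := by
    intro n hn
    induction n, hn using Nat.le_induction with
    | base => simp
    | succ n hn ih =>
      have hn' : (0 : ℝ) < n := by exact_mod_cast hn
      have h1 : ((n + 1 : ℕ) : ℂ) * t = n * t + t := by push_cast; ring
      rw [h1, phi_mul ha ξ (by simp; positivity) ht, ih, pow_succ]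
  obtain ⟨n, hn⟩ := exists_nat_gt (1 / t.re)
  have hn0 : (0 : ℝ) < n := lt_trans (by positivity) hn
  have hn1 : 1 ≤ n := by exact_mod_cast hn0
  have h1 : 1 < n * t.re := by rwa [div_lt_iff₀ ht] at hn
  have h2 : phi a ξ (n * t) = 0 := by
    have h3 : (n : ℂ) * t = 1 + (n * t - 1) := by ring
    rw [h3, phi_mul ha ξ (by simp) (by simp; linarith), hξ, zero_mul]
  rw [hpow n hn1] at h2
  exact pow_eq_zero_iff (by omega) |>.1 h2

lemma psi_continuousOn : ContinuousOn (psi a) {ξ | phi a ξ 1 ≠ 0} :=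
  ((evF_continuous _).neg.continuousOn).div (phi_continuous 1).continuousOn (fun _ h => h)

lemma exists_phi_ne (ha : IsAnalyticSemigroup a) : ∃ ξ, phi a ξ 1 ≠ 0 := by
  by_contra hcon
  push Not at hcon
  obtain ⟨t, ht, hat⟩ := ha.ne_zero
  apply hat
  rw [Lp.eq_zero_iff_ae_eq_zero]
  exact fourier_inj (L1.integrable_coeFn (a t)) (fun ξ => phi_eq_zero ha (hcon ξ) ht)

end Pool.Agent.P8H68.AS
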