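import Pool.Agent.P8H68.AS.Compact

/-!
# Pointwise limits of Fourier transforms of bounded sequences in `L¹(ℝ)`
-/

open MeasureTheory Filter Topology Set FourierTransform
open scoped BigOperators ENNReal NNReal BoundedContinuousFunction

namespace Pool.Agent.P8H68.AS

lemma fourier_eq_e (f : ℝ → ℂ) (ξ : ℝ) : 𝓕 f ξ = ∫ x, e (ξ * x) * f x := by
  rw [Real.fourier_real_eq]
  refine integral_congr_ae (Eventually.of_forall (fun x => ?_))
  simp only [e, Circle.smul_def, smul_eq_mul, mul_comm x ξ]

lemma ft_continuous (ρ : Measure ℝ) [IsFiniteMeasure ρ] : Continuous (ft ρ) := by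
  rw [Metric.continuous_iff]
  intro ξ ε hε
  obtain ⟨r, hr, h⟩ := ft_uniform ρ (half_pos hε)
  refine ⟨r, hr, fun η hη => ?_⟩
  rw [dist_eq_norm]
  rw [Real.dist_eq] at hη
  exact (h η ξ hη.le).trans_lt (half_lt_self hε)

lemma IsFS.uniform {F : ℝ → ℂ} (hF : IsFS F) {ε : ℝ} (hε : 0 < ε) :
    ∃ r : ℝ, 0 < r ∧ ∀ ξ η : ℝ, |ξ - η| ≤ r → ‖F ξ - F η‖ ≤ ε := by
  obtain ⟨ρ, hρ, hF⟩ := hF
  have h1 : ∀ j : Fin 4, ∃ r : ℝ, 0 < r ∧
      ∀ ξ η : ℝ, |ξ - η| ≤ r → ‖ft (ρ j) ξ - ft (ρ j) η‖ ≤ ε / 4 := fun j => by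
    have := hρ j
    exact ft_uniform (ρ j) (by positivity)
  choose r hr h using h1
  have hne : (Finset.univ : Finset (Fin 4)).Nonempty := Finset.univ_nonempty
  refine ⟨Finset.univ.inf' hne r, ?_, fun ξ η hξ => ?_⟩
  · rw [Finset.lt_inf'_iff]
    exact fun j _ => hr j
  · have h2 : F ξ - F η = ∑ j : Fin 4, Complex.I ^ (j : ℕ) * (ft (ρ j) ξ - ft (ρ j) η) := by
      rw [hF, hF, ← Finset.sum_sub_distrib]
      refine Finset.sum_congr rfl (fun j _ => ?_)
      ring
    rw [h2]
    calc ‖∑ j : Fin 4, Complex.I ^ (j : ℕ) * (ft (ρ j) ξ - ft (ρ j) η)‖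
        ≤ ∑ j : Fin 4, ‖Complex.I ^ (j : ℕ) * (ft (ρ j) ξ - ft (ρ j) η)‖ := norm_sum_le _ _
      _ ≤ ∑ j : Fin 4, ε / 4 := by
          refine Finset.sum_le_sum (fun j _ => ?_)
          rw [norm_mul, norm_pow, Complex.norm_I, one_pow, one_mul]
          exact h j ξ η (hξ.trans (Finset.inf'_le _ (Finset.mem_univ j)))
      _ = ε := by simp; ring

lemma IsFS.continuous {F : ℝ → ℂ} (hF : IsFS F) : Continuous F := by
  rw [Metric.continuous_iff]
  intro ξ ε hε
  obtain ⟨r, hr, h⟩ := hF.uniform (half_pos hε)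
  refine ⟨r, hr, fun η hη => ?_⟩
  rw [dist_eq_norm]
  rw [Real.dist_eq] at hη
  exact (h η ξ hη.le).trans_lt (half_lt_self hε)

/-- The four nonnegative parts. -/
noncomputable def part4 (j : Fin 4) (z : ℂ) : ℝ :=
  match j with
  | 0 => max z.re 0
  | 1 => max z.im 0
  | 2 => max (-z.re) 0
  | 3 => max (-z.im) 0

lemma part4_nonneg (j : Fin 4) (z : ℂ) : 0 ≤ part4 j z := by
  fin_cases j <;> simp [part4]

lemma part4_le (j : Fin 4) (z : ℂ) : part4 j z ≤ ‖z‖ := by
  have h1 := Complex.abs_re_le_norm z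
  have h2 := Complex.abs_im_le_norm z
  have h3 := le_abs_self z.re
  have h4 := le_abs_self z.im
  have h5 := neg_le_abs z.re
  have h6 := neg_le_abs z.im
  have h7 := norm_nonneg z
  fin_cases j <;> simp only [part4] <;> exact max_le (by linarith) h7

lemma part4_sum (z : ℂ) : ∑ j : Fin 4, Complex.I ^ (j : ℕ) * (part4 j z : ℂ) = z := by
  simp only [Fin.sum_univ_four, part4]
  have h1 : (max z.re 0 : ℝ) - max (-z.re) 0 = z.re := by
    rcases le_total z.re 0 with h | h
    · rw [max_eq_right h, max_eq_left (by linarith)]; ring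
    · rw [max_eq_left h, max_eq_right (by linarith)]; ring
  have h2 : (max z.im 0 : ℝ) - max (-z.im) 0 = z.im := by
    rcases le_total z.im 0 with h | h
    · rw [max_eq_right h, max_eq_left (by linarith)]; ring
    · rw [max_eq_left h, max_eq_right (by linarith)]; ring
  have hI2 : Complex.I ^ ((2 : Fin 4) : ℕ) = -1 := by
    simp
  have hI3 : Complex.I ^ ((3 : Fin 4) : ℕ) = -Complex.I := by
    change Complex.I ^ 3 = -Complex.I
    rw [pow_succ, Complex.I_sq]; ring
  have hI0 : Complex.I ^ ((0 : Fin 4) : ℕ) = 1 := by simp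
  have hI1 : Complex.I ^ ((1 : Fin 4) : ℕ) = Complex.I := by simp
  rw [hI0, hI1, hI2, hI3]
  have h3 : z = (((max z.re 0 : ℝ) - max (-z.re) 0 : ℝ) : ℂ) +
      (((max z.im 0 : ℝ) - max (-z.im) 0 : ℝ) : ℂ) * Complex.I := by
    rw [h1, h2]; exact (Complex.re_add_im z).symm
  conv_rhs => rw [h3]
  push_cast
  ring

lemma continuous_part4 (j : Fin 4) : Continuous (part4 j) := by
  fin_cases j
  · exact Complex.continuous_re.max continuous_const
  · exact Complex.continuous_im.max continuous_const
  · exact Complex.continuous_re.neg.max continuous_const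
  · exact Complex.continuous_im.neg.max continuous_const

/-- Pointwise limits of Fourier transforms of a bounded sequence in `L¹(ℝ)` are, up to null sets,
of class `IsFS`. -/
theorem weak_limit (f : ℕ → ℝ → ℂ) (hf : ∀ k, Integrable (f k)) {C : ℝ}
    (hC : ∀ k, ∫ x, ‖f k x‖ ≤ C) {F : ℝ → ℂ}
    (hF : ∀ ξ, Tendsto (fun k => 𝓕 (f k) ξ) atTop (𝓝 (F ξ))) :
    ∃ G : ℝ → ℂ, IsFS G ∧ G =ᵐ[volume] F := by
  have hpi : ∀ j k, Integrable (fun x => part4 j (f k x)) := by
    intro j k
    refine (hf k).norm.mono' ?_ (Eventually.of_forall (fun x => ?_))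
    · exact (continuous_part4 j).comp_aestronglyMeasurable (hf k).aestronglyMeasurable
    · rw [Real.norm_of_nonneg (part4_nonneg _ _)]; exact part4_le _ _
  have hpC : ∀ j k, ∫ x, part4 j (f k x) ≤ C := by
    intro j k
    refine le_trans ?_ (hC k)
    exact integral_mono (hpi j k) (hf k).norm (fun x => part4_le _ _)
  obtain ⟨ρ, hρ, hlim⟩ := exists_limit (fun j k x => part4 j (f k x))
    (fun j k x => part4_nonneg _ _) hpi hpC
  have hC0 : 0 ≤ C := (integral_nonneg (fun x => norm_nonneg _)).trans (hC 0)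
  let G : ℝ → ℂ := fun ξ => ∑ j : Fin 4, Complex.I ^ (j : ℕ) * ft (ρ j) ξ
  have hG : IsFS G := ⟨ρ, hρ, fun ξ => rfl⟩
  refine ⟨G, hG, ?_⟩
  have hFb : ∀ k ξ, ‖𝓕 (f k) ξ‖ ≤ C := by
    intro k ξ
    rw [fourier_eq_e]
    refine (norm_integral_le_integral_norm _).trans ?_
    simp only [norm_mul, norm_e, one_mul]
    exact hC k
  have hcont : ∀ k, Continuous (𝓕 (f k)) := fun k =>
    VectorFourier.fourierIntegral_continuous Real.continuous_fourierChar
      (innerSL ℝ).continuous₂ (hf k)
  have hFm : AEStronglyMeasurable F volume :=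
    aestronglyMeasurable_of_tendsto_ae (u := atTop) (f := fun k => 𝓕 (f k))
      (fun k => (hcont k).aestronglyMeasurable) (Eventually.of_forall hF)
  have hFbd : ∀ ξ, ‖F ξ‖ ≤ C := fun ξ =>
    le_of_tendsto (hF ξ).norm (Eventually.of_forall (fun k => hFb k ξ))
  refine ae_eq_of_forall_setIntegral_eq_of_sigmaFinite ?_ ?_ ?_
  · intro s _ hsf
    have : IsFiniteMeasure (volume.restrict s) := ⟨by rwa [Measure.restrict_apply_univ]⟩
    refine Integrable.mono' (g := fun _ => ∑ j : Fin 4, (ρ j).real univ) (integrable_const _)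
      hG.continuous.aestronglyMeasurable.restrict (Eventually.of_forall (fun ξ => ?_))
    refine (norm_sum_le _ _).trans (Finset.sum_le_sum (fun j _ => ?_))
    rw [norm_mul, norm_pow, Complex.norm_I, one_pow, one_mul]
    have := hρ j
    exact norm_ft_le _ _
  · intro s _ hsf
    have : IsFiniteMeasure (volume.restrict s) := ⟨by rwa [Measure.restrict_apply_univ]⟩
    exact Integrable.mono' (g := fun _ => C) (integrable_const _) hFm.restrict
      (Eventually.of_forall hFbd)
  · intro s hs hsf
    have hfin : IsFiniteMeasure (volume.restrict s) := ⟨by rwa [Measure.restrict_apply_univ]⟩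
    let g : ℝ → ℂ := fun x => ∫ ξ in s, e (ξ * x)
    have hg1 : g = 𝓕 (s.indicator (fun _ => (1 : ℂ))) := by
      ext x
      rw [fourier_eq_e]
      simp only [g]
      rw [← integral_indicator hs]
      refine integral_congr_ae (Eventually.of_forall (fun ξ => ?_))
      by_cases h : ξ ∈ s
      · simp only [indicator_of_mem h, mul_one, mul_comm x ξ]
      · simp only [indicator_of_notMem h, mul_zero]
    have hind : Integrable (s.indicator (fun _ => (1 : ℂ))) := by
      rw [integrable_indicator_iff hs]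
      exact integrable_const _
    have hgc : Continuous g := by
      rw [hg1]
      exact VectorFourier.fourierIntegral_continuous Real.continuous_fourierChar
        (innerSL ℝ).continuous₂ hind
    have hg0 : Tendsto g (cocompact ℝ) (𝓝 0) := by
      rw [hg1]; exact Real.zero_at_infty_fourier _
    -- left-hand side
    have hL1 : Tendsto (fun k => ∫ ξ in s, 𝓕 (f k) ξ) atTop (𝓝 (∫ ξ in s, F ξ)) := by
      refine tendsto_integral_of_dominated_convergence (fun _ => C) ?_ (integrable_const _) ?_ ?_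
      · exact fun k => (hcont k).aestronglyMeasurable
      · exact fun k => Eventually.of_forall (hFb k)
      · exact Eventually.of_forall hF
    have hL2 := hL1.mono_left (Nat.hyperfilter_le_atTop)
    -- Fubini for `f k`
    have hfub : ∀ k, ∫ ξ in s, 𝓕 (f k) ξ = ∫ x, f k x * g x := by
      intro k
      simp_rw [fourier_eq_e]
      rw [integral_integral_swap]
      · refine integral_congr_ae (Eventually.of_forall (fun x => ?_))
        simp only [g]
        rw [integral_mul_const, mul_comm]
      · have h1 : Integrable (fun z : ℝ × ℝ => f k z.2) ((volume.restrict s).prod volume) :=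
          (hf k).comp_snd _
        refine h1.mono ?_ (Eventually.of_forall (fun z => ?_))
        · refine AEStronglyMeasurable.mul ?_ h1.aestronglyMeasurable
          exact (continuous_e.comp (by fun_prop)).aestronglyMeasurable
        · obtain ⟨a, b⟩ := z
          change ‖e (a * b) * f k b‖ ≤ ‖f k b‖
          rw [norm_mul, norm_e, one_mul]
    have hR1 : ∀ k, ∫ x, f k x * g x = ∑ j : Fin 4, Complex.I ^ (j : ℕ) *
        ∫ x, (part4 j (f k x) : ℂ) * g x := by
      intro k
      have h1 : ∀ j : Fin 4, Integrable (fun x => (part4 j (f k x) : ℂ) * g x) := by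
        intro j
        have hgb : ∃ K, ∀ x, ‖g x‖ ≤ K := by
          refine ⟨(volume.restrict s).real univ, fun x => ?_⟩
          refine (norm_integral_le_integral_norm _).trans ?_
          simp
        obtain ⟨K, hK⟩ := hgb
        exact (hpi j k).ofReal.mul_bdd (c := K) hgc.aestronglyMeasurable
          (Eventually.of_forall hK)
      simp_rw [← integral_const_mul]
      rw [← integral_finsetSum]
      · refine integral_congr_ae (Eventually.of_forall (fun x => ?_))
        beta_reduce
        conv_lhs => rw [← part4_sum (f k x)]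
        rw [Finset.sum_mul]
        refine Finset.sum_congr rfl (fun j _ => ?_)
        ring
      · exact fun j _ => (h1 j).const_mul _
    have hR2 : Tendsto (fun k => ∑ j : Fin 4, Complex.I ^ (j : ℕ) *
        ∫ x, (part4 j (f k x) : ℂ) * g x) (hyperfilter ℕ : Filter ℕ)
        (𝓝 (∑ j : Fin 4, Complex.I ^ (j : ℕ) * ∫ x, g x ∂(ρ j))) :=
      tendsto_finsetSum _ (fun j _ => (hlim j g hgc hg0).const_mul _)
    have hfub2 : ∀ j, ∫ x, g x ∂(ρ j) = ∫ ξ in s, ft (ρ j) ξ := by
      intro j
      have := hρ j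
      simp only [g, ft]
      rw [integral_integral_swap]
      refine (integrable_const (1 : ℝ)).mono' ?_ (Eventually.of_forall (fun z => ?_))
      · exact (continuous_e.comp (by fun_prop)).aestronglyMeasurable
      · obtain ⟨a, b⟩ := z
        change ‖e _‖ ≤ 1
        rw [norm_e]
    have hEq : ∫ ξ in s, F ξ = ∑ j : Fin 4, Complex.I ^ (j : ℕ) * ∫ x, g x ∂(ρ j) := by
      refine tendsto_nhds_unique hL2 ?_
      refine hR2.congr (fun k => ?_)
      rw [hfub k, hR1 k]
    rw [hEq]
    change ∫ ξ in s, ∑ j : Fin 4, Complex.I ^ (j : ℕ) * ft (ρ j) ξ = _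
    rw [integral_finsetSum]
    · refine Finset.sum_congr rfl (fun j _ => ?_)
      rw [integral_const_mul, hfub2 j]
    · intro j _
      have := hρ j
      refine Integrable.const_mul ?_ _
      exact Integrable.mono' (g := fun _ => (ρ j).real univ) (integrable_const _)
        (ft_continuous _).aestronglyMeasurable (Eventually.of_forall (norm_ft_le _))

end Pool.Agent.P8H68.AS
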